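import Pool.Agent.Helper15.GE.Gen

set_option autoImplicit false
set_option linter.unusedVariables false
set_option linter.unusedSectionVars false

/-!
Two cubic fourfolds in correspondence through five bilinear forms are birational.
-/

namespace Pool.Agent.Helper15.GE

open MvPolynomial Module Matrix Pool.Agent.Helper16

section Cross

variable {R S : Type*} [CommRing R] [CommRing S] [Algebra ℂ R] [Algebra ℂ S]

/-- the vector of the maximal minors -/
def cross (M : Matrix (Fin 5) (Fin 6) R) : Fin 6 → R :=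
  fun j => (-1) ^ (j : ℕ) * (M.submatrix id j.succAbove).det

theorem cross_dot (M : Matrix (Fin 5) (Fin 6) R) (v : Fin 6 → R) :
    ∑ j, v j * cross M j = (Matrix.of (Fin.cons v M : Fin 6 → Fin 6 → R)).det := by
  rw [Matrix.det_succ_row_zero]
  refine Finset.sum_congr rfl fun j _ => ?_
  have h1 : (Matrix.of (Fin.cons v M : Fin 6 → Fin 6 → R)) 0 j = v j := rfl
  have h2 : (Matrix.of (Fin.cons v M : Fin 6 → Fin 6 → R)).submatrix Fin.succ j.succAbove =
      M.submatrix id j.succAbove := rfl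
  rw [h1, h2, cross]; ring

theorem row_cross (M : Matrix (Fin 5) (Fin 6) R) (k : Fin 5) : ∑ j, M k j * cross M j = 0 := by
  rw [cross_dot]
  exact Matrix.det_zero_of_row_eq (Fin.succ_ne_zero k).symm rfl

theorem cross_smul (c : R) (M : Matrix (Fin 5) (Fin 6) R) (j : Fin 6) :
    cross (c • M) j = c ^ 5 * cross M j := by
  have h1 : (c • M).submatrix id j.succAbove = c • M.submatrix id j.succAbove := rfl
  rw [cross, cross, h1, Matrix.det_smul, Fintype.card_fin]; ring

theorem map_cross (f : R →+* S) (M : Matrix (Fin 5) (Fin 6) R) (j : Fin 6) :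
    f (cross M j) = cross (M.map f) j := by
  rw [cross, cross, map_mul, map_pow, map_neg, map_one, RingHom.map_det]
  rfl

/-- the matrix of the five linear forms in the second variable -/
def rows (A : Fin 5 → Matrix (Fin 6) (Fin 6) ℂ) (x : Fin 6 → R) : Matrix (Fin 5) (Fin 6) R :=
  fun k j => ∑ i, algebraMap ℂ R (A k i j) * x i

theorem rows_smul (A : Fin 5 → Matrix (Fin 6) (Fin 6) ℂ) (c : R) (x : Fin 6 → R) :
    rows A (c • x) = c • rows A x := by
  ext k j
  simp only [rows, Pi.smul_apply, Matrix.smul_apply, smul_eq_mul, Finset.mul_sum]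
  refine Finset.sum_congr rfl fun i _ => ?_
  ring

theorem map_rows (A : Fin 5 → Matrix (Fin 6) (Fin 6) ℂ) (f : R →ₐ[ℂ] S) (x : Fin 6 → R) :
    (rows A x).map f = rows A (fun i => f (x i)) := by
  ext k j
  simp only [rows, Matrix.map_apply, map_sum, map_mul, AlgHom.commutes]

/-- the map given by the maximal minors -/
def mor (A : Fin 5 → Matrix (Fin 6) (Fin 6) ℂ) (x : Fin 6 → R) : Fin 6 → R := cross (rows A x)

theorem map_mor (A : Fin 5 → Matrix (Fin 6) (Fin 6) ℂ) (f : R →ₐ[ℂ] S) (x : Fin 6 → R) (j : Fin 6) :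
    f (mor A x j) = mor A (fun i => f (x i)) j := by
  rw [mor, mor, ← map_rows]
  exact map_cross (f : R →+* S) _ _

theorem mor_smul (A : Fin 5 → Matrix (Fin 6) (Fin 6) ℂ) (c : R) (x : Fin 6 → R) :
    mor A (c • x) = c ^ 5 • mor A x := by
  funext j
  rw [mor, rows_smul, cross_smul]; rfl

/-- the bilinear forms -/
def bil (A : Fin 5 → Matrix (Fin 6) (Fin 6) ℂ) (k : Fin 5) (x y : Fin 6 → R) : R :=
  ∑ i, ∑ j, algebraMap ℂ R (A k i j) * x i * y j

theorem bil_rows (A : Fin 5 → Matrix (Fin 6) (Fin 6) ℂ) (k : Fin 5) (x y : Fin 6 → R) :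
    bil A k x y = ∑ j, rows A x k j * y j := by
  simp only [bil, rows, Finset.sum_mul]
  rw [Finset.sum_comm]

/-- the transposed forms -/
def tr (A : Fin 5 → Matrix (Fin 6) (Fin 6) ℂ) : Fin 5 → Matrix (Fin 6) (Fin 6) ℂ := fun k => (A k)ᵀ

theorem bil_tr (A : Fin 5 → Matrix (Fin 6) (Fin 6) ℂ) (k : Fin 5) (x y : Fin 6 → R) :
    bil (tr A) k y x = bil A k x y := by
  simp only [bil, tr, Matrix.transpose_apply]
  rw [Finset.sum_comm]
  refine Finset.sum_congr rfl fun i _ => Finset.sum_congr rfl fun j _ => ?_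
  ring

theorem bil_mor (A : Fin 5 → Matrix (Fin 6) (Fin 6) ℂ) (k : Fin 5) (x : Fin 6 → R) :
    bil A k x (mor A x) = 0 := by
  rw [bil_rows]; exact row_cross _ _

end Cross

section Field

variable {K : Type} [Field K] [Algebra ℂ K]

/-- if the rank is five, the kernel is the line of the minors -/
theorem eq_smul_cross (M : Matrix (Fin 5) (Fin 6) K) (hM : cross M ≠ 0) (v : Fin 6 → K)
    (hv : ∀ k, ∑ j, M k j * v j = 0) : ∃ s : K, v = s • cross M := by
  obtain ⟨i, hi⟩ := Function.ne_iff.mp hM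
  have hi : cross M i ≠ 0 := hi
  set N : Matrix (Fin 6) (Fin 6) K := Matrix.of (Fin.cons (Pi.single i 1) M : Fin 6 → Fin 6 → K)
    with hN
  have hdet : N.det ≠ 0 := by
    rw [hN, ← cross_dot]
    simpa [Pi.single_apply] using hi
  refine ⟨v i / cross M i, ?_⟩
  have h0 : N.mulVec (v - (v i / cross M i) • cross M) = 0 := by
    funext k
    refine Fin.cases ?_ (fun k => ?_) k
    · have : (N.mulVec (v - (v i / cross M i) • cross M)) 0 =
          ∑ j, (Pi.single i 1 : Fin 6 → K) j * (v - (v i / cross M i) • cross M) j := rfl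
      rw [this]
      simp only [Pi.single_apply, ite_mul, one_mul, zero_mul, Finset.sum_ite_eq', Finset.mem_univ,
        if_true, Pi.sub_apply, Pi.smul_apply, smul_eq_mul, Pi.zero_apply]
      rw [div_mul_cancel₀ _ hi, sub_self]
    · have : (N.mulVec (v - (v i / cross M i) • cross M)) k.succ =
          ∑ j, M k j * (v - (v i / cross M i) • cross M) j := rfl
      rw [this]
      simp only [Pi.sub_apply, Pi.smul_apply, smul_eq_mul, mul_sub, Finset.sum_sub_distrib, hv,
        Pi.zero_apply, zero_sub, neg_eq_zero]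
      have h1 := row_cross M k
      rw [← mul_zero (v i / cross M i), ← h1, Finset.mul_sum]
      refine Finset.sum_congr rfl fun j _ => ?_
      ring
  have h1 := Matrix.eq_zero_of_mulVec_eq_zero hdet h0
  exact sub_eq_zero.mp h1

theorem eq_smul_mor (A : Fin 5 → Matrix (Fin 6) (Fin 6) ℂ) (x y : Fin 6 → K) (hx : mor A x ≠ 0)
    (h : ∀ k, bil A k x y = 0) : ∃ s : K, y = s • mor A x :=
  eq_smul_cross _ hx y fun k => by rw [← bil_rows]; exact h k

end Field

/-- the polynomials of the map -/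
noncomputable def morP (A : Fin 5 → Matrix (Fin 6) (Fin 6) ℂ) : Fin 6 → MvPolynomial (Fin 6) ℂ :=
  mor A X

theorem aeval_morP (A : Fin 5 → Matrix (Fin 6) (Fin 6) ℂ) {S : Type*} [CommRing S] [Algebra ℂ S]
    (x : Fin 6 → S) (j : Fin 6) : aeval x (morP A j) = mor A x j := by
  rw [morP, map_mor]
  simp only [aeval_X]

theorem morP_hom (A : Fin 5 → Matrix (Fin 6) (Fin 6) ℂ) (j : Fin 6) :
    (morP A j).IsHomogeneous 5 := by
  have hr : ∀ k i, (rows A (X : Fin 6 → MvPolynomial (Fin 6) ℂ) k i).IsHomogeneous 1 := by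
    intro k i
    refine IsHomogeneous.sum _ _ _ fun l _ => ?_
    rw [MvPolynomial.algebraMap_eq]
    have := (isHomogeneous_C (Fin 6) (A k l i)).mul (isHomogeneous_X ℂ l)
    simpa using this
  rw [morP, mor, cross]
  have h1 : (((rows A (X : Fin 6 → MvPolynomial (Fin 6) ℂ)).submatrix id
      j.succAbove).det).IsHomogeneous 5 := by
    rw [Matrix.det_apply]
    refine IsHomogeneous.sum _ _ _ fun σ _ => ?_
    have h2 : (∏ i : Fin 5, ((rows A (X : Fin 6 → MvPolynomial (Fin 6) ℂ)).submatrix id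
        j.succAbove) (σ i) i).IsHomogeneous 5 := by
      have := IsHomogeneous.prod Finset.univ (fun i : Fin 5 =>
        ((rows A (X : Fin 6 → MvPolynomial (Fin 6) ℂ)).submatrix id j.succAbove) (σ i) i)
        (fun _ => 1) (fun i _ => hr _ _)
      simpa using this
    rcases Int.units_eq_one_or (Equiv.Perm.sign σ) with h | h
    · rw [h, one_smul]; exact h2
    · rw [h, Units.neg_smul, one_smul]; exact h2.neg
  have h3 : ((-1 : MvPolynomial (Fin 6) ℂ) ^ (j : ℕ)).IsHomogeneous 0 := by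
    have : ((-1 : MvPolynomial (Fin 6) ℂ) ^ (j : ℕ)) = C ((-1) ^ (j : ℕ)) := by
      rw [map_pow, map_neg, map_one]
    rw [this]; exact isHomogeneous_C _ _
  have := h3.mul h1
  simpa using this

/-- two cubics in correspondence: one direction of the incidence -/
def Imp (F F' P : MvPolynomial (Fin 6) ℂ) (A : Fin 5 → Matrix (Fin 6) (Fin 6) ℂ) : Prop :=
  ∀ (K : Type) [Field K] [Algebra ℂ K] (x x' : Fin 6 → K), (∀ k, bil A k x x' = 0) →
    aeval x F = 0 → aeval x P ≠ 0 → aeval x' F' = 0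

variable {F F' P P' : MvPolynomial (Fin 6) ℂ} {A : Fin 5 → Matrix (Fin 6) (Fin 6) ℂ}

theorem GenPt.ne {K : Type} [Field K] [Algebra ℂ K] {x : Fin 6 → K} (hx : GenPt F x)
    {G : MvPolynomial (Fin 6) ℂ} {n : ℕ} (hG : G.IsHomogeneous n) (p : Fin 6 → ℂ)
    (hp : aeval p F = 0) (hGp : aeval p G ≠ 0) : aeval x G ≠ 0 := by
  intro h0
  obtain ⟨q, hq⟩ := hx.gen G n hG h0
  apply hGp
  rw [hq, map_mul, hp, zero_mul]

theorem GenPt.mor_ne {K : Type} [Field K] [Algebra ℂ K] {x : Fin 6 → K} (hx : GenPt F x)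
    (p : Fin 6 → ℂ) (hp : aeval p F = 0) (hA : mor A p ≠ 0) : mor A x ≠ 0 := by
  obtain ⟨i, hi⟩ := Function.ne_iff.mp hA
  intro h0
  apply hx.ne (morP_hom A i) p hp (by rw [aeval_morP]; exact hi)
  rw [aeval_morP, h0]; rfl

theorem smul_ne {K : Type} [Field K] {s : K} {v : Fin 6 → K} (hv : s • v ≠ 0) : s ≠ 0 := by
  rintro rfl
  exact hv (zero_smul _ _)

theorem mor_zero {K : Type} [Field K] [Algebra ℂ K] : mor A (0 : Fin 6 → K) = 0 := by
  have h := mor_smul A (0 : K) (0 : Fin 6 → K)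
  rw [smul_zero] at h
  rw [h]
  simp

/-- the composite of the two maps at the base pair -/
theorem mor_mor_ne {p p' : Fin 6 → ℂ} (hpp : ∀ k, bil A k p p' = 0) (hp : mor A p ≠ 0)
    (hp' : mor (tr A) p' ≠ 0) : mor A (mor (tr A) p') ≠ 0 := by
  obtain ⟨s, hs⟩ := eq_smul_mor (tr A) p' p hp' (fun k => by rw [bil_tr]; exact hpp k)
  have hp0 : p ≠ 0 := by
    rintro rfl
    exact hp mor_zero
  rw [hs] at hp
  rw [mor_smul] at hp
  intro h0
  rw [h0, smul_zero] at hp
  exact hp rfl

/-- the image of a generic point is a generic point -/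
theorem genPt_mor (hF' : F'.IsHomogeneous 3) (hs' : Smooth F') {d d' : ℕ}
    (hP : P.IsHomogeneous d) (hP' : P'.IsHomogeneous d') (h1 : Imp F F' P A)
    (h2 : Imp F' F P' (tr A)) (hFP : ¬ F ∣ P) (hFP' : ¬ F' ∣ P') {p p' : Fin 6 → ℂ}
    (hpp : ∀ k, bil A k p p' = 0) (hFp : aeval p F = 0) (hFp' : aeval p' F' = 0)
    (hp : mor A p ≠ 0) (hp' : mor (tr A) p' ≠ 0) {K : Type} [Field K] [Algebra ℂ K]
    {x : Fin 6 → K} (hx : GenPt F x) : GenPt F' (mor A x) := by
  constructor
  · exact h1 K x (mor A x) (fun k => bil_mor A k x) hx.zero (fun h => hFP (hx.gen P d hP h))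
  · intro G n hG h0
    obtain ⟨K', _, _, y, hy⟩ := exists_genPt hF' hs'
    have hy1 : mor (tr A) y ≠ 0 := hy.mor_ne p' hFp' hp'
    have hy2 : mor A (mor (tr A) y) ≠ 0 := by
      obtain ⟨i, hi⟩ := Function.ne_iff.mp (mor_mor_ne hpp hp hp')
      have h3 : (aeval (morP (tr A)) (morP A i) : MvPolynomial (Fin 6) ℂ).IsHomogeneous (5 * 5) :=
        (morP_hom A i).aeval _ (fun j => morP_hom (tr A) j)
      have h4 : ∀ {L : Type} [Field L] [Algebra ℂ L] (z : Fin 6 → L),
          aeval z (aeval (morP (tr A)) (morP A i) : MvPolynomial (Fin 6) ℂ) =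
            mor A (mor (tr A) z) i := by
        intro L _ _ z
        have h5 : (aeval z : MvPolynomial (Fin 6) ℂ →ₐ[ℂ] L).comp (aeval (morP (tr A))) =
            aeval (mor (tr A) z) := by
          apply MvPolynomial.algHom_ext
          intro j
          rw [AlgHom.comp_apply, aeval_X, aeval_X, aeval_morP]
        have h6 := DFunLike.congr_fun h5 (morP A i)
        rw [AlgHom.comp_apply] at h6
        rw [h6, aeval_morP]
      have h7 := hy.ne h3 p' hFp' (by rw [h4]; exact hi)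
      rw [h4] at h7
      intro h8
      apply h7
      rw [h8]; rfl
    have hy3 : aeval (mor (tr A) y) F = 0 :=
      h2 K' y (mor (tr A) y) (fun k => bil_mor (tr A) k y) hy.zero
        (fun h => hFP' (hy.gen P' d' hP' h))
    obtain ⟨s, hs⟩ := eq_smul_mor A (mor (tr A) y) y hy2 (fun k => by
      rw [← bil_tr]; exact bil_mor (tr A) k y)
    -- `G ∘ mor A` is divisible by `F`
    have h3 : (aeval (morP A) G : MvPolynomial (Fin 6) ℂ).IsHomogeneous (5 * n) :=
      hG.aeval _ (fun j => morP_hom A j)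
    have h4 : ∀ {L : Type} [Field L] [Algebra ℂ L] (z : Fin 6 → L),
        aeval z (aeval (morP A) G : MvPolynomial (Fin 6) ℂ) = aeval (mor A z) G := by
      intro L _ _ z
      have h5 : (aeval z : MvPolynomial (Fin 6) ℂ →ₐ[ℂ] L).comp (aeval (morP A)) =
          aeval (mor A z) := by
        apply MvPolynomial.algHom_ext
        intro j
        rw [AlgHom.comp_apply, aeval_X, aeval_X, aeval_morP]
      exact DFunLike.congr_fun h5 G
    obtain ⟨q, hq⟩ := hx.gen _ _ h3 (by rw [h4]; exact h0)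
    have h5 : aeval (mor A (mor (tr A) y)) G = 0 := by
      rw [← h4, hq, map_mul, hy3, zero_mul]
    apply hy.gen G n hG
    rw [hs]
    have h6 := aeval_mul_hom hG s (mor A (mor (tr A) y))
    have h7 : (s • mor A (mor (tr A) y)) = fun i => s * mor A (mor (tr A) y) i := rfl
    rw [h7, h6, h5, mul_zero]

/-- **Transfer of rationality** through five bilinear forms. -/
theorem ratG_transfer (hF' : F'.IsHomogeneous 3) (hs' : Smooth F') {d d' : ℕ}
    (hP : P.IsHomogeneous d) (hP' : P'.IsHomogeneous d') (h1 : Imp F F' P A)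
    (h2 : Imp F' F P' (tr A)) (hFP : ¬ F ∣ P) (hFP' : ¬ F' ∣ P') {p p' : Fin 6 → ℂ}
    (hpp : ∀ k, bil A k p p' = 0) (hFp : aeval p F = 0) (hFp' : aeval p' F' = 0)
    (hp : mor A p ≠ 0) (hp' : mor (tr A) p' ≠ 0) (hR : RatG F') : RatG F := by
  intro K _ _ x hx
  have hx' := genPt_mor hF' hs' hP hP' h1 h2 hFP hFP' hpp hFp hFp' hp hp' hx
  obtain ⟨r, τ, hτ, hr⟩ := hR K _ hx'
  have hx1 : mor (tr A) (mor A x) ≠ 0 := hx'.mor_ne p' hFp' hp'
  obtain ⟨s, hs⟩ := eq_smul_mor (tr A) (mor A x) x hx1 (fun k => by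
    rw [bil_tr]; exact bil_mor A k x)
  have hx0 : x ≠ 0 := by
    rintro rfl
    exact hx.mor_ne p hFp hp mor_zero
  have hs0 : s ≠ 0 := by
    rintro rfl
    rw [zero_smul] at hs
    exact hx0 hs
  refine ⟨r, τ ^ 5 / s, div_ne_zero (pow_ne_zero _ hτ) hs0, fun m => ?_⟩
  have e1 : τ ^ 5 / s * x m = mor (tr A) (τ • mor A x) m := by
    have h3 := congrFun hs m
    rw [Pi.smul_apply, smul_eq_mul] at h3
    rw [mor_smul, Pi.smul_apply, smul_eq_mul, h3, ← mul_assoc, div_mul_cancel₀ _ hs0]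
  rw [e1]
  -- the value of polynomials at a point of the subfield
  set L := IntermediateField.adjoin ℂ (Set.range r) with hL
  let z : Fin 6 → L := fun i => ⟨τ * mor A x i, hr i⟩
  have e2 : mor (tr A) (τ • mor A x) m = L.val (mor (tr A) z m) := by
    rw [map_mor]; rfl
  rw [e2]
  exact (mor (tr A) z m).2

end Pool.Agent.Helper15.GE
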