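import Pool.Agent.Helper15.GE.Final

set_option autoImplicit false
set_option linter.unusedVariables false
set_option linter.unusedSectionVars false

/-!
Gale dual smooth cubic fourfolds are birational.
-/

namespace Pool.Agent.Helper15.GE

open MvPolynomial Module Matrix Pool.Agent.Helper16

section Embed

variable {F : MvPolynomial (Fin 6) ℂ}

theorem GenPt.zero_ne (hF : F.IsHomogeneous 3) (hs : Smooth F) {K : Type} [Field K] [Algebra ℂ K]
    {x : Fin 6 → K} (hx : GenPt F x) : x 0 ≠ 0 := by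
  intro h0
  exact not_dvd_X hF hs 0 (hx.gen (X 0) 1 (isHomogeneous_X ℂ 0) (by rw [aeval_X, h0]))

/-- the function field of the cubic is generated by the quotients of the coordinates of a generic
point -/
theorem exists_embed (hF : F.IsHomogeneous 3) (hs : Smooth F) {K : Type} [Field K] [Algebra ℂ K]
    {x : Fin 6 → K} (hx : GenPt F x) :
    ∃ Φ : FractionRing (MvPolynomial (Fin 5) ℂ ⧸ Ideal.span {dh F}) →ₐ[ℂ] K,
      Function.Injective Φ ∧ ∀ z, (∃ a, Φ a = z) ↔
        z ∈ IntermediateField.adjoin ℂ (Set.range fun m => (x 0)⁻¹ * x m) := by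
  have hirr := irreducible_dh hF hs
  have hprime : (Ideal.span {dh F}).IsPrime :=
    (Ideal.span_singleton_prime hirr.ne_zero).mpr hirr.prime
  have hdom : IsDomain (MvPolynomial (Fin 5) ℂ ⧸ Ideal.span {dh F}) := Ideal.Quotient.isDomain _
  have hx0 : x 0 ≠ 0 := hx.zero_ne hF hs
  -- affine coordinates
  let y : Fin 5 → K := fun j => (x 0)⁻¹ * x j.succ
  have hxy : ∀ m, x m = x 0 * (Fin.cons 1 y : Fin 6 → K) m := by
    intro m
    refine Fin.cases ?_ (fun j => ?_) m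
    · simp
    · simp only [Fin.cons_succ, y]
      rw [← mul_assoc, mul_inv_cancel₀ hx0, one_mul]
  have hdh : ∀ (G : MvPolynomial (Fin 6) ℂ), aeval y (dh G) = aeval (Fin.cons 1 y : Fin 6 → K) G := by
    intro G
    have : (aeval y : MvPolynomial (Fin 5) ℂ →ₐ[ℂ] K).comp dh =
        aeval (Fin.cons 1 y : Fin 6 → K) := by
      apply MvPolynomial.algHom_ext
      intro i
      refine Fin.cases ?_ (fun j => ?_) i
      · simp [dh]
      · simp [dh]
    exact DFunLike.congr_fun this G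
  have hhom : ∀ (G : MvPolynomial (Fin 6) ℂ) (n : ℕ), G.IsHomogeneous n →
      aeval x G = x 0 ^ n * aeval (Fin.cons 1 y : Fin 6 → K) G := by
    intro G n hG
    rw [← aeval_mul_hom hG]
    have h1 : x = fun i => x 0 * (Fin.cons 1 y : Fin 6 → K) i := funext hxy
    have h2 := congrArg (fun z : Fin 6 → K => aeval z G) h1
    exact h2
  have hFy : aeval y (dh F) = 0 := by
    rw [hdh]
    have h1 := hhom F 3 hF
    rw [hx.zero] at h1
    rcases mul_eq_zero.mp h1.symm with h2 | h2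
    · exact absurd (pow_eq_zero_iff (by norm_num) |>.mp h2) hx0
    · exact h2
  let φ : (MvPolynomial (Fin 5) ℂ ⧸ Ideal.span {dh F}) →ₐ[ℂ] K :=
    Ideal.Quotient.liftₐ _ (aeval y) (by
      intro a ha
      obtain ⟨b, hb⟩ := Ideal.mem_span_singleton.mp ha
      rw [hb, map_mul, hFy, zero_mul])
  have hφ : ∀ p, φ (Ideal.Quotient.mk _ p) = aeval y p := fun p => rfl
  have hφi : Function.Injective φ := by
    rw [injective_iff_map_eq_zero]
    intro a ha
    obtain ⟨p, rfl⟩ := Ideal.Quotient.mk_surjective a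
    rw [hφ] at ha
    rw [Ideal.Quotient.eq_zero_iff_mem, Ideal.mem_span_singleton]
    have h1 := dh_hmg (le_refl p.totalDegree)
    have h2 : aeval x (hmg p.totalDegree p) = 0 := by
      rw [hhom _ _ (hmg_hom _ p), ← hdh, h1, ha, mul_zero]
    obtain ⟨q, hq⟩ := hx.gen _ _ (hmg_hom _ p) h2
    refine ⟨dh q, ?_⟩
    rw [← h1, hq, map_mul]
  let Φ : FractionRing (MvPolynomial (Fin 5) ℂ ⧸ Ideal.span {dh F}) →ₐ[ℂ] K :=
    IsFractionRing.liftAlgHom (K := FractionRing (MvPolynomial (Fin 5) ℂ ⧸ Ideal.span {dh F}))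
      hφi
  have hΦ : ∀ p : MvPolynomial (Fin 5) ℂ, Φ (algebraMap (MvPolynomial (Fin 5) ℂ ⧸ Ideal.span {dh F})
      (FractionRing (MvPolynomial (Fin 5) ℂ ⧸ Ideal.span {dh F}))
      (Ideal.Quotient.mk (Ideal.span {dh F}) p)) = aeval y p := by
    intro p
    have : Φ (algebraMap (MvPolynomial (Fin 5) ℂ ⧸ Ideal.span {dh F})
      (FractionRing (MvPolynomial (Fin 5) ℂ ⧸ Ideal.span {dh F}))
      (Ideal.Quotient.mk (Ideal.span {dh F}) p)) = φ (Ideal.Quotient.mk _ p) :=
      IsFractionRing.lift_algebraMap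
        (g := (φ : (MvPolynomial (Fin 5) ℂ ⧸ Ideal.span {dh F}) →+* K)) hφi _
    rw [this, hφ]
  refine ⟨Φ, Φ.toRingHom.injective, fun z => ⟨?_, ?_⟩⟩
  · set L := IntermediateField.adjoin ℂ (Set.range fun m => (x 0)⁻¹ * x m) with hL
    have hy : ∀ j, y j ∈ L := fun j => IntermediateField.subset_adjoin ℂ _ ⟨j.succ, rfl⟩
    have h1 : ∀ p : MvPolynomial (Fin 5) ℂ, aeval y p ∈ L := by
      intro p
      induction p using MvPolynomial.induction_on with
      | C a => rw [algHom_C]; exact L.algebraMap_mem a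
      | add p q hp hq => rw [map_add]; exact L.add_mem hp hq
      | mul_X p j hp => rw [map_mul, aeval_X]; exact L.mul_mem hp (hy j)
    rintro ⟨a, rfl⟩
    obtain ⟨u, v, hv, rfl⟩ := IsFractionRing.div_surjective
      (A := MvPolynomial (Fin 5) ℂ ⧸ Ideal.span {dh F}) a
    obtain ⟨u, rfl⟩ := Ideal.Quotient.mk_surjective u
    obtain ⟨v, rfl⟩ := Ideal.Quotient.mk_surjective v
    rw [map_div₀, hΦ, hΦ]
    exact L.div_mem (h1 u) (h1 v)
  · intro hz
    have h2 : IntermediateField.adjoin ℂ (Set.range fun m => (x 0)⁻¹ * x m) ≤ Φ.fieldRange := by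
      rw [IntermediateField.adjoin_le_iff]
      rintro _ ⟨m, rfl⟩
      refine Fin.cases ?_ (fun j => ?_) m
      · change (x 0)⁻¹ * x 0 ∈ Φ.fieldRange
        rw [inv_mul_cancel₀ hx0]; exact Φ.fieldRange.one_mem
      · refine ⟨_, (hΦ (X j)).trans ?_⟩
        rw [aeval_X]
    exact h2 hz

/-- two cubics with a common field of quotients of coordinates of generic points -/
theorem equiv_of_adjoin {F' : MvPolynomial (Fin 6) ℂ} (hF : F.IsHomogeneous 3) (hs : Smooth F)
    (hF' : F'.IsHomogeneous 3) (hs' : Smooth F') {K : Type} [Field K] [Algebra ℂ K]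
    {x x' : Fin 6 → K} (hx : GenPt F x) (hx' : GenPt F' x')
    (hadj : IntermediateField.adjoin ℂ (Set.range fun m => (x 0)⁻¹ * x m) =
      IntermediateField.adjoin ℂ (Set.range fun m => (x' 0)⁻¹ * x' m)) :
    Nonempty (FractionRing (MvPolynomial (Fin 5) ℂ ⧸ Ideal.span {dh F}) ≃ₐ[ℂ]
      FractionRing (MvPolynomial (Fin 5) ℂ ⧸ Ideal.span {dh F'})) := by
  obtain ⟨Φ, hΦ, h1⟩ := exists_embed hF hs hx
  obtain ⟨Φ', hΦ', h1'⟩ := exists_embed hF' hs' hx'
  have h2 : Φ.range = Φ'.range := by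
    ext z
    rw [AlgHom.mem_range, AlgHom.mem_range, h1, h1', hadj]
  exact ⟨((AlgEquiv.ofInjective Φ hΦ).trans (Subalgebra.equivOfEq _ _ h2)).trans
    (AlgEquiv.ofInjective Φ' hΦ').symm⟩

/-- the normalisation by the first coordinate -/
theorem adjoin_le_of {K : Type} [Field K] [Algebra ℂ K] {z : Fin 6 → K}
    (M : IntermediateField ℂ K) {τ : K} (hτ : τ ≠ 0) (h : ∀ m, τ * z m ∈ M) :
    IntermediateField.adjoin ℂ (Set.range fun m => (z 0)⁻¹ * z m) ≤ M := by
  rw [IntermediateField.adjoin_le_iff]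
  rintro _ ⟨m, rfl⟩
  have h1 : (z 0)⁻¹ * z m = (τ * z m) / (τ * z 0) := by
    rw [mul_div_mul_left _ _ hτ, div_eq_inv_mul]
  change (z 0)⁻¹ * z m ∈ M
  rw [h1]
  exact M.div_mem (h m) (h 0)

theorem mor_mem {A : Fin 5 → Matrix (Fin 6) (Fin 6) ℂ} {K : Type} [Field K] [Algebra ℂ K]
    (L : IntermediateField ℂ K) {z : Fin 6 → K} (hz : ∀ m, z m ∈ L) (m : Fin 6) :
    mor A z m ∈ L := by
  let z' : Fin 6 → L := fun i => ⟨z i, hz i⟩
  have e2 : mor A z m = L.val (mor A z' m) := by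
    rw [map_mor]; rfl
  rw [e2]
  exact (mor A z' m).2

end Embed

variable {F F' P P' : MvPolynomial (Fin 6) ℂ} {A : Fin 5 → Matrix (Fin 6) (Fin 6) ℂ}

/-- **Two cubics in correspondence through five bilinear forms are birational.** -/
theorem birational_of_forms (hF : F.IsHomogeneous 3) (hs : Smooth F) (hF' : F'.IsHomogeneous 3)
    (hs' : Smooth F') {d d' : ℕ}
    (hP : P.IsHomogeneous d) (hP' : P'.IsHomogeneous d') (h1 : Imp F F' P A)
    (h2 : Imp F' F P' (tr A)) (hFP : ¬ F ∣ P) (hFP' : ¬ F' ∣ P') {p p' : Fin 6 → ℂ}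
    (hpp : ∀ k, bil A k p p' = 0) (hFp : aeval p F = 0) (hFp' : aeval p' F' = 0)
    (hp : mor A p ≠ 0) (hp' : mor (tr A) p' ≠ 0) :
    Nonempty (FractionRing (MvPolynomial (Fin 5) ℂ ⧸ Ideal.span {dh F}) ≃ₐ[ℂ]
      FractionRing (MvPolynomial (Fin 5) ℂ ⧸ Ideal.span {dh F'})) := by
  obtain ⟨K, _, _, x, hx⟩ := exists_genPt hF hs
  have hx' := genPt_mor hF' hs' hP hP' h1 h2 hFP hFP' hpp hFp hFp' hp hp' hx
  have hx1 : mor (tr A) (mor A x) ≠ 0 := hx'.mor_ne p' hFp' hp'
  obtain ⟨s, hs1⟩ := eq_smul_mor (tr A) (mor A x) x hx1 (fun k => by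
    rw [bil_tr]; exact bil_mor A k x)
  have hx0 : x 0 ≠ 0 := hx.zero_ne hF hs
  have hx0' : mor A x 0 ≠ 0 := hx'.zero_ne hF' hs'
  have hs0 : s ≠ 0 := by
    rintro rfl
    rw [zero_smul] at hs1
    exact hx0 (congrFun hs1 0)
  refine equiv_of_adjoin hF hs hF' hs' hx hx' (le_antisymm ?_ ?_)
  · -- the coordinates of `x` are polynomials in those of `mor A x`
    set L := IntermediateField.adjoin ℂ (Set.range fun m => (mor A x 0)⁻¹ * mor A x m) with hL
    refine adjoin_le_of L (τ := ((mor A x 0)⁻¹) ^ 5 / s)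
      (div_ne_zero (pow_ne_zero _ (inv_ne_zero hx0')) hs0) fun m => ?_
    have e1 : ((mor A x 0)⁻¹) ^ 5 / s * x m = mor (tr A) ((mor A x 0)⁻¹ • mor A x) m := by
      have h3 := congrFun hs1 m
      rw [Pi.smul_apply, smul_eq_mul] at h3
      rw [mor_smul, Pi.smul_apply, smul_eq_mul, h3, ← mul_assoc, div_mul_cancel₀ _ hs0]
    rw [e1]
    exact mor_mem L (fun i => IntermediateField.subset_adjoin ℂ _ ⟨i, rfl⟩) m
  · set L := IntermediateField.adjoin ℂ (Set.range fun m => (x 0)⁻¹ * x m) with hL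
    refine adjoin_le_of L (τ := ((x 0)⁻¹) ^ 5) (pow_ne_zero _ (inv_ne_zero hx0)) fun m => ?_
    have e1 : ((x 0)⁻¹) ^ 5 * mor A x m = mor A ((x 0)⁻¹ • x) m := by
      rw [mor_smul, Pi.smul_apply, smul_eq_mul]
    rw [e1]
    exact mor_mem L (fun i => IntermediateField.subset_adjoin ℂ _ ⟨i, rfl⟩) m

variable {B B' : Matrix (Fin 3) (Fin 3) (MvPolynomial (Fin 6) ℂ)}
  {l l' : Fin 3 → MvPolynomial (Fin 6) ℂ}

theorem gale_birational_of_corr (h : Lin B l) (h' : Lin B' l') (hd : Dual B B' l l')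
    (h0 : ∀ i, l i ≠ 0) (h0' : ∀ i, l' i ≠ 0) (hs : Smooth (cubicP B l))
    (hs' : Smooth (cubicM B' l')) {p p' : Fin 6 → ℂ} (hp : Corr B B' l l' p p') :
    Nonempty (FractionRing (MvPolynomial (Fin 5) ℂ ⧸ Ideal.span {dh (cubicP B l)}) ≃ₐ[ℂ]
      FractionRing (MvPolynomial (Fin 5) ℂ ⧸ Ideal.span {dh (cubicM B' l')})) := by
  have hF := cubicP_hom h
  have hF' := cubicM_hom h'
  have hpp := (tri_iff h h' hd p p').mp hp.tri
  refine birational_of_forms hF hs hF' hs' (prod_hom h) (prod_hom h') (imp_five h h' hd)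
    (imp_five' h h' hd) (not_dvd_prod hF hs h.l h0) (not_dvd_prod hF' hs' h'.l h0')
    hpp (by rw [aeval_eq_eval]; exact hp.zero) (by rw [aeval_eq_eval]; exact hp.zero') ?_ ?_
  · refine cross_ne _ p' hp.ne' fun v hv => hp.uniq v ((tri_iff h h' hd p v).mpr fun k => ?_)
    rw [bil_rows]; exact hv k
  · refine cross_ne _ p hp.ne fun v hv => hp.uniq' v ((tri_iff h h' hd v p').mpr fun k => ?_)
    rw [← bil_tr, bil_rows]; exact hv k

/-- **Gale duality.**  Two smooth cubic fourfolds `det B + l₀ l₁ l₂ = 0` and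
`det B' - l'₀ l'₁ l'₂ = 0` which are Gale dual are birational. -/
theorem gale_birational (h : Lin B l) (h' : Lin B' l') (hd : Dual B B' l l')
    (hs : Smooth (cubicP B l)) (hs' : Smooth (cubicM B' l')) :
    Nonempty (FractionRing (MvPolynomial (Fin 5) ℂ ⧸ Ideal.span {dh (cubicP B l)}) ≃ₐ[ℂ]
      FractionRing (MvPolynomial (Fin 5) ℂ ⧸ Ideal.span {dh (cubicM B' l')})) := by
  have hinj := inj_of_smooth h hs
  have hinj' := inj_of_smooth' h' hs'
  have h0' : ∀ i, l' i ≠ 0 := ne_zero_of_smooth h h' hd hinj hinj'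
    (fun i x hB hl => no_vertex h hs i x hB hl)
  have h0 : ∀ i, l i ≠ 0 := ne_zero_of_smooth h' h hd.symm hinj' hinj (fun i x hB hl => by
    rw [cubicM_eq] at hs'
    refine no_vertex h'.neg hs' i x hB fun j hj => ?_
    rw [map_neg, hl j hj, neg_zero])
  obtain ⟨p, p', hp⟩ := exists_corr
    (fun _ hs hl1 hl2 => Helper54.GE.core_of_iso Helper80.GE.exists_iso hs hl1 hl2) h h' hd hs
    (h0 1) (h0 2) (ind_of_smooth h h' hd hs hs') hinj'
  exact gale_birational_of_corr h h' hd h0 h0' hs hs' hp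

end Pool.Agent.Helper15.GE
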