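import Pool.Agent.Helper15.GE.Gale
import Pool.Agent.Helper54.GE.CoreDef

set_option autoImplicit false
set_option linter.unusedVariables false
set_option linter.unusedSectionVars false

/-!
Gale duality of cubic fourfolds: existence of a nondegenerate pair, from the existence in normal
coordinates.
-/

namespace Pool.Agent.Helper15.GE

open MvPolynomial Module Matrix Pool.Agent.Helper16

variable {B B' : Matrix (Fin 3) (Fin 3) (MvPolynomial (Fin 6) ℂ)}
  {l l' : Fin 3 → MvPolynomial (Fin 6) ℂ}

/-- the value of a linear form at a complex point -/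
theorem eval_linear {G : MvPolynomial (Fin 6) ℂ} (hG : G.IsHomogeneous 1) (x : Fin 6 → ℂ) :
    eval x G = ∑ a, eval (Pi.single a 1) G * x a := by
  have h := aeval_linear hG x
  rw [aeval_eq_eval] at h
  exact h

theorem eval_linear_sum {G : MvPolynomial (Fin 6) ℂ} (hG : G.IsHomogeneous 1) {ι : Type}
    [Fintype ι] (c : ι → ℂ) (x : ι → Fin 6 → ℂ) :
    eval (∑ i, c i • x i) G = ∑ i, c i * eval (x i) G := by
  have h1 : ∀ i, c i * eval (x i) G = ∑ a, eval (Pi.single a 1) G * (c i * x i a) := by
    intro i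
    rw [eval_linear hG (x i), Finset.mul_sum]
    refine Finset.sum_congr rfl fun a _ => ?_
    ring
  simp only [h1]
  rw [eval_linear hG, Finset.sum_comm]
  refine Finset.sum_congr rfl fun a _ => ?_
  rw [Finset.sum_apply, Finset.mul_sum]
  rfl

theorem eval_linear_smul {G : MvPolynomial (Fin 6) ℂ} (hG : G.IsHomogeneous 1) (c : ℂ)
    (x : Fin 6 → ℂ) : eval (c • x) G = c * eval x G := by
  have := eval_linear_sum hG (fun _ : Fin 1 => c) (fun _ => x)
  simpa using this

theorem eval_linear_sub {G : MvPolynomial (Fin 6) ℂ} (hG : G.IsHomogeneous 1)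
    (x y : Fin 6 → ℂ) : eval (x - y) G = eval x G - eval y G := by
  rw [eval_linear hG, eval_linear hG x, eval_linear hG y, ← Finset.sum_sub_distrib]
  refine Finset.sum_congr rfl fun a _ => ?_
  rw [Pi.sub_apply]; ring

theorem eval_pderiv_linear {G : MvPolynomial (Fin 6) ℂ} (hG : G.IsHomogeneous 1) (i : Fin 6)
    (x : Fin 6 → ℂ) : eval x (pderiv i G) = eval (Pi.single i 1) G := by
  have h3 := euler_eval hG (Pi.single i 1 : Fin 6 → ℂ)
  simp only [Nat.cast_one, one_mul] at h3
  rw [h3, Finset.sum_eq_single i]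
  · rw [Pi.single_eq_same, one_mul, eval_const_of_hom0 (hG.pderiv (i := i)) x,
      eval_const_of_hom0 (hG.pderiv (i := i)) (Pi.single i 1)]
  · intro b _ hb
    rw [Pi.single_eq_of_ne hb, zero_mul]
  · intro h; exact absurd (Finset.mem_univ i) h

/-- coordinates adapted to four independent linear forms -/
theorem exists_coord (G : Fin 4 → MvPolynomial (Fin 6) ℂ) (hG : ∀ k, (G k).IsHomogeneous 1)
    (hind : LinearIndependent ℂ G) :
    ∃ g : (Fin 6 → ℂ) ≃ₗ[ℂ] (Fin 6 → ℂ), ∀ (x : Fin 6 → ℂ) (k : Fin 4),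
      g x (Fin.castLE (by norm_num) k) = eval x (G k) := by
  classical
  -- coefficient vectors
  let c : Fin 4 → (Fin 6 → ℂ) := fun k a => eval (Pi.single a 1) (G k)
  have hc : LinearIndependent ℂ c := by
    rw [Fintype.linearIndependent_iff] at hind ⊢
    intro t ht
    apply hind t
    apply MvPolynomial.funext
    intro x
    rw [map_sum, map_zero]
    have h1 : ∀ k, eval x (t k • G k) = ∑ a, t k * c k a * x a := by
      intro k
      rw [MvPolynomial.smul_eval, eval_linear (hG k), Finset.mul_sum]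
      refine Finset.sum_congr rfl fun a _ => ?_
      ring
    simp only [h1]
    rw [Finset.sum_comm]
    refine Finset.sum_eq_zero fun a _ => ?_
    rw [← Finset.sum_mul]
    have h2 := congrFun ht a
    rw [Finset.sum_apply] at h2
    simp only [Pi.smul_apply, smul_eq_mul, Pi.zero_apply] at h2
    rw [h2, zero_mul]
  -- the four forms define a surjection with a complement of dimension two
  let M : Matrix (Fin 4) (Fin 6) ℂ := Matrix.of c
  have hM : LinearMap.range M.mulVecLin = ⊤ := by
    have h1 : M.rank = 4 := by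
      have := LinearIndependent.rank_matrix (M := M) hc
      simpa using this
    apply Submodule.eq_top_of_finrank_eq
    rw [← Matrix.rank, h1]; simp
  have hker : finrank ℂ (LinearMap.ker M.mulVecLin) = 2 := by
    have h1 := LinearMap.finrank_range_add_finrank_ker M.mulVecLin
    rw [hM, finrank_top] at h1
    simp at h1
    omega
  obtain ⟨W, hW⟩ := Submodule.exists_isCompl (LinearMap.ker M.mulVecLin)
  let e2 : LinearMap.ker M.mulVecLin ≃ₗ[ℂ] (Fin 2 → ℂ) :=
    LinearEquiv.ofFinrankEq _ _ (by rw [hker]; simp)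
  let pr : (Fin 6 → ℂ) →ₗ[ℂ] LinearMap.ker M.mulVecLin := Submodule.projectionOnto _ _ hW
  let f : (Fin 6 → ℂ) →ₗ[ℂ] (Fin 6 → ℂ) :=
    LinearMap.pi (fun i : Fin 6 => if h : (i : ℕ) < 4 then
      (LinearMap.proj (⟨i, h⟩ : Fin 4)).comp M.mulVecLin
      else (LinearMap.proj (if (i : ℕ) = 4 then 0 else 1 : Fin 2)).comp (e2.toLinearMap.comp pr))
  have hf : Function.Injective f := by
    rw [injective_iff_map_eq_zero]
    intro x hx
    have h1 : M.mulVecLin x = 0 := by
      funext k
      have := congrFun hx (Fin.castLE (by norm_num) k)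
      simpa [f, k.2] using this
    have h2 : e2 (pr x) = 0 := by
      funext k
      fin_cases k
      · have := congrFun hx 4
        simpa [f] using this
      · have := congrFun hx 5
        simpa [f] using this
    have h3 : pr x = 0 := by
      apply e2.injective
      rw [h2, map_zero]
    have h4 := Submodule.projectionOnto_apply_left hW ⟨x, h1⟩
    have h5 : pr x = ⟨x, h1⟩ := h4
    rw [h3] at h5
    exact (congrArg Subtype.val h5).symm
  refine ⟨LinearEquiv.ofInjectiveEndo f hf, fun x k => ?_⟩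
  have h1 : (LinearEquiv.ofInjectiveEndo f hf) x = f x := rfl
  rw [h1]
  have h2 : f x (Fin.castLE (by norm_num) k) = M.mulVecLin x k := by
    simp [f, k.2]
  rw [h2, eval_linear (hG k)]
  rfl

/-- the index set of the twelve forms -/
abbrev Ix := (Fin 3 × Fin 3) ⊕ Fin 3

/-- the twelve forms -/
noncomputable def forms (B : Matrix (Fin 3) (Fin 3) (MvPolynomial (Fin 6) ℂ))
    (l : Fin 3 → MvPolynomial (Fin 6) ℂ) : Ix → MvPolynomial (Fin 6) ℂ :=
  Sum.elim (fun a => B a.1 a.2) l

theorem forms_hom (h : Lin B l) (k : Ix) : (forms B l k).IsHomogeneous 1 := by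
  rcases k with ⟨i, j⟩ | i
  · exact h.B i j
  · exact h.l i

/-- the coefficient matrix of the twelve forms -/
noncomputable def jac (B : Matrix (Fin 3) (Fin 3) (MvPolynomial (Fin 6) ℂ))
    (l : Fin 3 → MvPolynomial (Fin 6) ℂ) : Matrix Ix (Fin 6) ℂ :=
  Matrix.of fun k a => eval (Pi.single a 1) (forms B l k)

theorem jac_mulVec (h : Lin B l) (x : Fin 6 → ℂ) (k : Ix) :
    (jac B l).mulVec x k = eval x (forms B l k) := by
  rw [eval_linear (forms_hom h k)]
  rfl

/-- the second space is the orthogonal complement of the first -/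
theorem exists_of_orth (h : Lin B l) (h' : Lin B' l') (hd : Dual B B' l l')
    (hinj : ∀ x : Fin 6 → ℂ, (∀ k, eval x (forms B l k) = 0) → x = 0)
    (hinj' : ∀ x : Fin 6 → ℂ, (∀ k, eval x (forms B' l' k) = 0) → x = 0) (w : Ix → ℂ)
    (hw : ∀ x : Fin 6 → ℂ, ∑ k, eval x (forms B l k) * w k = 0) :
    ∃ x' : Fin 6 → ℂ, ∀ k, eval x' (forms B' l' k) = w k := by
  have r1 : (jac B l).rank = 6 := by
    rw [Matrix.rank, LinearMap.finrank_range_of_inj]
    · simp
    · rw [injective_iff_map_eq_zero]
      intro x hx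
      apply hinj
      intro k
      rw [← jac_mulVec h]
      exact congrFun hx k
  have r2 : (jac B' l').rank = 6 := by
    rw [Matrix.rank, LinearMap.finrank_range_of_inj]
    · simp
    · rw [injective_iff_map_eq_zero]
      intro x hx
      apply hinj'
      intro k
      rw [← jac_mulVec h']
      exact congrFun hx k
  have hle : LinearMap.range (jac B' l').mulVecLin ≤ LinearMap.ker (jac B l)ᵀ.mulVecLin := by
    rintro _ ⟨x', rfl⟩
    rw [LinearMap.mem_ker]
    funext a
    have h1 := hd (Pi.single a 1) x'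
    have h2 : (jac B l)ᵀ.mulVecLin ((jac B' l').mulVecLin x') a =
        ∑ k, eval (Pi.single a 1) (forms B l k) * eval x' (forms B' l' k) := by
      change ∑ k, (jac B l)ᵀ a k * ((jac B' l').mulVec x') k = _
      refine Finset.sum_congr rfl fun k _ => ?_
      rw [jac_mulVec h']
      rfl
    rw [h2, Fintype.sum_sum_type, Fintype.sum_prod_type]
    exact h1
  have heq : LinearMap.range (jac B' l').mulVecLin = LinearMap.ker (jac B l)ᵀ.mulVecLin := by
    apply Submodule.eq_of_le_of_finrank_eq hle
    have h1 := LinearMap.finrank_range_add_finrank_ker (jac B l)ᵀ.mulVecLin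
    rw [← Matrix.rank, Matrix.rank_transpose, r1] at h1
    have h2 : finrank ℂ (Ix → ℂ) = 12 := by simp [Ix]
    rw [← Matrix.rank, r2]
    omega
  have hmem : w ∈ LinearMap.ker (jac B l)ᵀ.mulVecLin := by
    rw [LinearMap.mem_ker]
    funext a
    exact hw (Pi.single a 1)
  rw [← heq] at hmem
  obtain ⟨x', hx'⟩ := hmem
  refine ⟨x', fun k => ?_⟩
  rw [← jac_mulVec h', ← hx']
  rfl

open Pool.Agent.Helper54.GE in
/-- **Existence of a nondegenerate pair.** -/
theorem exists_corr (hcore : ∀ D : Dat, Sm D → D.l1 ≠ 0 → D.l2 ≠ 0 → Core D) (h : Lin B l)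
    (h' : Lin B' l') (hd : Dual B B' l l') (hs : Smooth (cubicP B l)) (hl1 : l 1 ≠ 0)
    (hl2 : l 2 ≠ 0) (hind : LinearIndependent ℂ ![B 0 0, B 1 0, B 2 0, l 0])
    (hinj' : ∀ x : Fin 6 → ℂ, (∀ k, eval x (forms B' l' k) = 0) → x = 0) :
    ∃ p p', Corr B B' l l' p p' := by
  obtain ⟨g, hg⟩ := exists_coord ![B 0 0, B 1 0, B 2 0, l 0] (by
    intro k
    fin_cases k
    · exact h.B 0 0
    · exact h.B 1 0
    · exact h.B 2 0
    · exact h.l 0) hind
  have g0 : ∀ x, g x 0 = eval x (B 0 0) := fun x => hg x 0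
  have g1 : ∀ x, g x 1 = eval x (B 1 0) := fun x => hg x 1
  have g2 : ∀ x, g x 2 = eval x (B 2 0) := fun x => hg x 2
  have g3 : ∀ x, g x 3 = eval x (l 0) := fun x => hg x 3
  let D : Dat :=
    { b1 := fun i m => eval (g.symm (Pi.single m 1)) (B i 1)
      b2 := fun i m => eval (g.symm (Pi.single m 1)) (B i 2)
      l1 := fun m => eval (g.symm (Pi.single m 1)) (l 1)
      l2 := fun m => eval (g.symm (Pi.single m 1)) (l 2) }
  have hev : ∀ (G : MvPolynomial (Fin 6) ℂ), G.IsHomogeneous 1 → ∀ x : Fin 6 → ℂ,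
      ev ℂ (fun m => eval (g.symm (Pi.single m 1)) G) (g x) = eval x G := by
    intro G hG x
    have h1 : x = ∑ m, (g x m) • g.symm (Pi.single m 1) := by
      apply g.injective
      rw [map_sum]
      simp only [map_smul, LinearEquiv.apply_symm_apply]
      funext i
      simp [Finset.sum_apply, Pi.single_apply]
    rw [ev_apply]
    conv_rhs => rw [h1, eval_linear_sum hG]
    refine Finset.sum_congr rfl fun m _ => ?_
    rw [mul_comm]; rfl
  have e0 : ∀ x i, B0 (g x) i = eval x (B i 0) := by
    intro x i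
    fin_cases i
    · exact g0 x
    · exact g1 x
    · exact g2 x
  have e1 : ∀ x i, B1 D (g x) i = eval x (B i 1) := fun x i => hev _ (h.B i 1) x
  have e2 : ∀ x i, B2 D (g x) i = eval x (B i 2) := fun x i => hev _ (h.B i 2) x
  have f1 : ∀ x, ev ℂ D.l1 (g x) = eval x (l 1) := fun x => hev _ (h.l 1) x
  have f2 : ∀ x, ev ℂ D.l2 (g x) = eval x (l 2) := fun x => hev _ (h.l 2) x
  -- smoothness
  have hSm : Sm D := by
    intro z hz
    obtain ⟨i, hi⟩ := hs (g.symm z) (fun h0 => hz (by
      have := congrArg g h0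
      rw [LinearEquiv.apply_symm_apply, map_zero] at this
      exact this))
    refine ⟨g (Pi.single i 1), fun h0 => hi ?_⟩
    rw [← h0]
    obtain ⟨x, rfl⟩ := g.surjective z
    rw [LinearEquiv.symm_apply_apply]
    have hp : ∀ G : MvPolynomial (Fin 6) ℂ, G.IsHomogeneous 1 →
        eval x (pderiv i G) = eval (Pi.single i 1) G := fun G hG => eval_pderiv_linear hG i x
    rw [cubicP, Matrix.det_fin_three]
    simp only [map_add, map_sub, Derivation.leibniz, smul_eq_mul, map_mul, dF, dt, e0, e1, e2, f1,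
      f2, g3, hp _ (h.B _ _), hp _ (h.l _)]
    ring
  have hne : ∀ (G : MvPolynomial (Fin 6) ℂ), G.IsHomogeneous 1 → G ≠ 0 →
      (fun m => eval (g.symm (Pi.single m 1)) G) ≠ (0 : Fin 6 → ℂ) := by
    intro G hG hG0 h0
    apply hG0
    apply MvPolynomial.funext
    intro x
    rw [← hev G hG x, h0, map_zero, ev_apply]
    simp
  obtain ⟨z, b, lv, hz, hlv, hF, hF', hpair, htri, hu, hu'⟩ :=
    hcore D hSm (hne _ (h.l 1) hl1) (hne _ (h.l 2) hl2)
  obtain ⟨p, rfl⟩ := g.surjective z
  have hinj : ∀ x : Fin 6 → ℂ, (∀ k, eval x (forms B l k) = 0) → x = 0 := by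
    intro x hx
    by_contra hx0
    have hB : ∀ i j, eval x (B i j) = 0 := fun i j => hx (Sum.inl (i, j))
    have hl : ∀ i, eval x (l i) = 0 := fun i => hx (Sum.inr i)
    obtain ⟨i, hi⟩ := hs x hx0
    apply hi
    rw [cubicP, Matrix.det_fin_three]
    simp only [map_add, map_sub, Derivation.leibniz, smul_eq_mul, map_mul, hB, hl]
    ring
  have hpairx : ∀ (x : Fin 6 → ℂ) (b : Fin 3 → Fin 3 → ℂ) (lv : Fin 3 → ℂ),
      pair D (g x) b lv = ∑ k, eval x (forms B l k) *
        (Sum.elim (fun a : Fin 3 × Fin 3 => b a.2 a.1) lv : Ix → ℂ) k := by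
    intro x b lv
    rw [Fintype.sum_sum_type, Fintype.sum_prod_type]
    simp only [pair, e0, e1, e2, f1, f2, g3, forms, Sum.elim_inl, Sum.elim_inr, Fin.sum_univ_three]
    ring
  obtain ⟨p', hp'⟩ := exists_of_orth h h' hd hinj hinj'
    (Sum.elim (fun a : Fin 3 × Fin 3 => b a.2 a.1) lv) (fun x => by
      rw [← hpairx]; exact hpair _)
  have b' : ∀ i j, eval p' (B' i j) = b j i := fun i j => hp' (Sum.inl (i, j))
  have l'' : ∀ i, eval p' (l' i) = lv i := fun i => hp' (Sum.inr i)
  refine ⟨p, p', ?_⟩
  constructor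
  · rintro rfl
    exact hz (map_zero g)
  · rintro rfl
    apply hlv
    funext i
    rw [← l'' i, eval_linear (h'.l i)]
    simp
  · rw [cubicP, map_add, ← aeval_eq_eval, aeval_det, Matrix.det_fin_three]
    simp only [Matrix.of_apply, aeval_eq_eval, map_mul]
    simp only [dt, e0, e1, e2, f1, f2, g3] at hF
    linear_combination hF
  · rw [cubicM, map_sub, ← aeval_eq_eval, aeval_det, Matrix.det_fin_three]
    simp only [Matrix.of_apply, aeval_eq_eval, map_mul, b', l'']
    simp only [dt] at hF'
    linear_combination hF'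
  · intro i j hij
    fin_cases i <;> fin_cases j
    · have := htri.t00
      simp only [e0, g3] at this
      simpa [b', l''] using this
    · have := htri.t01
      simp only [e0] at this
      simpa [b'] using this
    · have := htri.t02
      simp only [e0] at this
      simpa [b'] using this
    · exact absurd hij (by decide)
    · have := htri.t11
      simp only [e1, f1] at this
      simpa [b', l''] using this
    · have := htri.t12
      simp only [e1] at this
      simpa [b'] using this
    · exact absurd hij (by decide)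
    · exact absurd hij (by decide)
    · have := htri.t22
      simp only [e2, f2] at this
      simpa [b', l''] using this
  · intro q hq
    obtain ⟨s, hs1, hs2⟩ := hu' (fun j i => eval q (B' i j)) (fun i => eval q (l' i)) (by
      intro v
      obtain ⟨x, rfl⟩ := g.surjective v
      rw [hpairx, Fintype.sum_sum_type, Fintype.sum_prod_type]
      exact hd x q) (by
      have q00 := hq 0 0 (by decide)
      have q01 := hq 0 1 (by decide)
      have q02 := hq 0 2 (by decide)
      have q11 := hq 1 1 (by decide)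
      have q12 := hq 1 2 (by decide)
      have q22 := hq 2 2 (by decide)
      rw [if_pos rfl] at q00 q11 q22
      rw [if_neg (by decide)] at q01 q02 q12
      constructor
      · simp only [e0]; exact q01
      · simp only [e0]; exact q02
      · simp only [e1]; exact q12
      · simp only [e0, g3]; exact q00
      · simp only [e1, f1]; exact q11
      · simp only [e2, f2]; exact q22)
    refine ⟨s, ?_⟩
    have h0 := hinj' (q - s • p') (by
      intro k
      rw [eval_linear_sub (forms_hom h' k), eval_linear_smul (forms_hom h' k)]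
      rcases k with ⟨i, j⟩ | i
      · have h1 := congrFun (congrFun hs1 j) i
        have h2 : eval p' (forms B' l' (Sum.inl (i, j))) = b j i := b' i j
        rw [h2]
        exact sub_eq_zero.mpr h1
      · have h1 := congrFun hs2 i
        have h2 : eval p' (forms B' l' (Sum.inr i)) = lv i := l'' i
        rw [h2]
        exact sub_eq_zero.mpr h1)
    exact sub_eq_zero.mp h0
  · intro q hq
    obtain ⟨s, hs1⟩ := hu (g q) (by
      have q00 := hq 0 0 (by decide)
      have q01 := hq 0 1 (by decide)
      have q02 := hq 0 2 (by decide)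
      have q11 := hq 1 1 (by decide)
      have q12 := hq 1 2 (by decide)
      have q22 := hq 2 2 (by decide)
      rw [if_pos rfl] at q00 q11 q22
      rw [if_neg (by decide)] at q01 q02 q12
      simp only [b', l''] at q00 q01 q02 q11 q12 q22
      constructor
      · simp only [e0]; exact q01
      · simp only [e0]; exact q02
      · simp only [e1]; exact q12
      · simp only [e0, g3]; exact q00
      · simp only [e1, f1]; exact q11
      · simp only [e2, f2]; exact q22)
    refine ⟨s, g.injective ?_⟩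
    rw [hs1, map_smul]

/-- the twelve forms of a smooth cubic have no common zero -/
theorem inj_of_smooth (h : Lin B l) (hs : Smooth (cubicP B l)) :
    ∀ x : Fin 6 → ℂ, (∀ k, eval x (forms B l k) = 0) → x = 0 := by
  intro x hx
  by_contra hx0
  have hB : ∀ i j, eval x (B i j) = 0 := fun i j => hx (Sum.inl (i, j))
  have hl : ∀ i, eval x (l i) = 0 := fun i => hx (Sum.inr i)
  obtain ⟨i, hi⟩ := hs x hx0
  apply hi
  rw [cubicP, Matrix.det_fin_three]
  simp only [map_add, map_sub, Derivation.leibniz, smul_eq_mul, map_mul, hB, hl]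
  ring

theorem cubicM_eq (B : Matrix (Fin 3) (Fin 3) (MvPolynomial (Fin 6) ℂ))
    (l : Fin 3 → MvPolynomial (Fin 6) ℂ) : cubicM B l = cubicP B (fun i => - l i) := by
  rw [cubicM, cubicP]; ring

theorem Lin.neg (h : Lin B l) : Lin B (fun i => - l i) := ⟨h.B, fun i => (h.l i).neg⟩

theorem inj_of_smooth' (h : Lin B l) (hs : Smooth (cubicM B l)) :
    ∀ x : Fin 6 → ℂ, (∀ k, eval x (forms B l k) = 0) → x = 0 := by
  intro x hx
  rw [cubicM_eq] at hs
  refine inj_of_smooth h.neg hs x ?_
  rintro (⟨i, j⟩ | i)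
  · exact hx (Sum.inl (i, j))
  · have h1 := hx (Sum.inr i)
    change eval x (- l i) = 0
    rw [map_neg, neg_eq_zero]
    exact h1

/-- a smooth cubic has no point at which `B` and two of the forms `l` vanish -/
theorem no_vertex (h : Lin B l) (hs : Smooth (cubicP B l)) (i : Fin 3) (x : Fin 6 → ℂ)
    (hB : ∀ a b, eval x (B a b) = 0) (hl : ∀ j, j ≠ i → eval x (l j) = 0) : x = 0 := by
  by_contra hx0
  obtain ⟨m, hm⟩ := hs x hx0
  apply hm
  rw [cubicP, Matrix.det_fin_three]
  fin_cases i
  · have h1 := hl 1 (by decide)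
    have h2 := hl 2 (by decide)
    simp only [map_add, map_sub, Derivation.leibniz, smul_eq_mul, map_mul, hB, h1, h2]
    ring
  · have h1 := hl 0 (by decide)
    have h2 := hl 2 (by decide)
    simp only [map_add, map_sub, Derivation.leibniz, smul_eq_mul, map_mul, hB, h1, h2]
    ring
  · have h1 := hl 0 (by decide)
    have h2 := hl 1 (by decide)
    simp only [map_add, map_sub, Derivation.leibniz, smul_eq_mul, map_mul, hB, h1, h2]
    ring

theorem Dual.symm (hd : Dual B B' l l') : Dual B' B l' l := by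
  intro x x'
  have h1 := hd x' x
  simpa only [mul_comm] using h1

/-- the forms `l'` of the Gale dual of a smooth cubic are not zero -/
theorem ne_zero_of_smooth (h : Lin B l) (h' : Lin B' l') (hd : Dual B B' l l')
    (hinj : ∀ x : Fin 6 → ℂ, (∀ k, eval x (forms B l k) = 0) → x = 0)
    (hinj' : ∀ x : Fin 6 → ℂ, (∀ k, eval x (forms B' l' k) = 0) → x = 0)
    (hv : ∀ (i : Fin 3) (x : Fin 6 → ℂ), (∀ a b, eval x (B a b) = 0) →
      (∀ j, j ≠ i → eval x (l j) = 0) → x = 0) (i : Fin 3) : l' i ≠ 0 := by
  intro h0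
  obtain ⟨x, hx⟩ := exists_of_orth h' h hd.symm hinj' hinj (Pi.single (Sum.inr i) 1) (by
    intro y
    rw [Finset.sum_eq_single (Sum.inr i)]
    · rw [Pi.single_eq_same, mul_one]
      change eval y (l' i) = 0
      rw [h0, map_zero]
    · intro b _ hb
      rw [Pi.single_eq_of_ne hb, mul_zero]
    · intro hb; exact absurd (Finset.mem_univ _) hb)
  have h1 : x = 0 := by
    refine hv i x (fun a b => ?_) (fun j hj => ?_)
    · have := hx (Sum.inl (a, b))
      rw [Pi.single_eq_of_ne (by simp)] at this
      exact this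
    · have := hx (Sum.inr j)
      rw [Pi.single_eq_of_ne (by simpa using hj)] at this
      exact this
  have h2 := hx (Sum.inr i)
  rw [Pi.single_eq_same, h1, eval_linear (forms_hom h _)] at h2
  simp at h2

open Pool.Agent.Helper54.GE in
/-- **Gale duality for smooth cubics.** -/
theorem gale_of_smooth (hcore : ∀ D : Dat, Sm D → D.l1 ≠ 0 → D.l2 ≠ 0 → Core D) (h : Lin B l)
    (h' : Lin B' l') (hd : Dual B B' l l') (hs : Smooth (cubicP B l))
    (hs' : Smooth (cubicM B' l'))
    (hind : LinearIndependent ℂ ![B 0 0, B 1 0, B 2 0, l 0])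
    (hR : Nonempty (FractionRing (MvPolynomial (Fin 5) ℂ ⧸ Ideal.span {dh (cubicM B' l')}) ≃ₐ[ℂ]
      FractionRing (MvPolynomial (Fin 4) ℂ))) :
    Nonempty (FractionRing (MvPolynomial (Fin 5) ℂ ⧸ Ideal.span {dh (cubicP B l)}) ≃ₐ[ℂ]
      FractionRing (MvPolynomial (Fin 4) ℂ)) := by
  have hinj := inj_of_smooth h hs
  have hinj' := inj_of_smooth' h' hs'
  have h0' : ∀ i, l' i ≠ 0 := ne_zero_of_smooth h h' hd hinj hinj'
    (fun i x hB hl => no_vertex h hs i x hB hl)
  have h0 : ∀ i, l i ≠ 0 := ne_zero_of_smooth h' h hd.symm hinj' hinj (fun i x hB hl => by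
    rw [cubicM_eq] at hs'
    refine no_vertex h'.neg hs' i x hB fun j hj => ?_
    rw [map_neg, hl j hj, neg_zero])
  obtain ⟨p, p', hp⟩ := exists_corr hcore h h' hd hs (h0 1) (h0 2) hind hinj'
  exact gale h h' hd h0 h0' hs hs' hp hR

end Pool.Agent.Helper15.GE
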