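import Pool.Agent.Helper15.GE.Corr
import Pool.Agent.Helper54.GE.NDh
import Pool.Agent.Helper80.GE.Iso

set_option autoImplicit false

/-!
Gale duality of smooth cubic fourfolds, unconditional.
-/

namespace Pool.Agent.Helper15.GE

open MvPolynomial Module Matrix Pool.Agent.Helper16

variable {B B' : Matrix (Fin 3) (Fin 3) (MvPolynomial (Fin 6) ℂ)}
  {l l' : Fin 3 → MvPolynomial (Fin 6) ℂ}

/-- the first column and the first form are independent, if the Gale dual is smooth -/
theorem ind_of_smooth (h : Lin B l) (h' : Lin B' l') (hd : Dual B B' l l')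
    (hs : Smooth (cubicP B l)) (hs' : Smooth (cubicM B' l')) :
    LinearIndependent ℂ ![B 0 0, B 1 0, B 2 0, l 0] := by
  rw [Fintype.linearIndependent_iff]
  intro t ht
  rw [Fin.sum_univ_four] at ht
  simp only [Matrix.cons_val_zero, Matrix.cons_val_one, Matrix.cons_val] at ht
  have ht' : ∀ x : Fin 6 → ℂ, t 0 * eval x (B 0 0) + t 1 * eval x (B 1 0) + t 2 * eval x (B 2 0) +
      t 3 * eval x (l 0) = 0 := by
    intro x
    have := congrArg (eval x) ht
    simpa [MvPolynomial.smul_eval] using this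
  have hinj := inj_of_smooth h hs
  have hinj' := inj_of_smooth' h' hs'
  let w : Ix → ℂ := Sum.elim (fun a => if a.2 = 0 then ![t 0, t 1, t 2] a.1 else 0)
    (fun i => if i = 0 then t 3 else 0)
  obtain ⟨y, hy⟩ := exists_of_orth h h' hd hinj hinj' w (by
    intro x
    rw [Fintype.sum_sum_type, Fintype.sum_prod_type]
    have := ht' x
    simp only [w, forms, Sum.elim_inl, Sum.elim_inr, Fin.sum_univ_three]
    simp
    linear_combination this)
  have yB : ∀ i j, eval y (B' i j) = if j = 0 then ![t 0, t 1, t 2] i else 0 :=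
    fun i j => hy (Sum.inl (i, j))
  have yl : ∀ i, eval y (l' i) = if i = 0 then t 3 else 0 := fun i => hy (Sum.inr i)
  have y0 : y = 0 := by
    by_contra hy0
    obtain ⟨m, hm⟩ := hs' y hy0
    apply hm
    have b1 : ∀ i, eval y (B' i 1) = 0 := fun i => by rw [yB]; simp
    have b2 : ∀ i, eval y (B' i 2) = 0 := fun i => by rw [yB]; simp
    have l1 : eval y (l' 1) = 0 := by rw [yl]; simp
    have l2 : eval y (l' 2) = 0 := by rw [yl]; simp
    rw [cubicM, Matrix.det_fin_three]
    simp only [map_add, map_sub, Derivation.leibniz, smul_eq_mul, map_mul, b1, b2, l1, l2]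
    ring
  have z : ∀ k, eval y (forms B' l' k) = 0 := by
    intro k
    rw [y0, eval_linear (forms_hom h' k)]
    simp
  have t0 : t 0 = 0 := by
    have h1 := yB 0 0
    have h2 := z (Sum.inl (0, 0))
    rw [if_pos rfl] at h1
    exact h1.symm.trans h2
  have t1 : t 1 = 0 := by
    have h1 := yB 1 0
    have h2 := z (Sum.inl (1, 0))
    rw [if_pos rfl] at h1
    exact h1.symm.trans h2
  have t2 : t 2 = 0 := by
    have h1 := yB 2 0
    have h2 := z (Sum.inl (2, 0))
    rw [if_pos rfl] at h1
    exact h1.symm.trans h2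
  have t3 : t 3 = 0 := by
    have h1 := yl 0
    have h2 := z (Sum.inr 0)
    rw [if_pos rfl] at h1
    exact h1.symm.trans h2
  intro i
  fin_cases i
  · exact t0
  · exact t1
  · exact t2
  · exact t3

/-- Two smooth cubic fourfolds `det B + l₀ l₁ l₂ = 0` and `det B' - l'₀ l'₁ l'₂ = 0` which are Gale
dual: if the second is rational, so is the first. -/
theorem gale_final (h : Lin B l) (h' : Lin B' l') (hd : Dual B B' l l')
    (hs : Smooth (cubicP B l)) (hs' : Smooth (cubicM B' l'))
    (hR : Nonempty (FractionRing (MvPolynomial (Fin 5) ℂ ⧸ Ideal.span {dh (cubicM B' l')}) ≃ₐ[ℂ]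
      FractionRing (MvPolynomial (Fin 4) ℂ))) :
    Nonempty (FractionRing (MvPolynomial (Fin 5) ℂ ⧸ Ideal.span {dh (cubicP B l)}) ≃ₐ[ℂ]
      FractionRing (MvPolynomial (Fin 4) ℂ)) :=
  gale_of_smooth (fun _ hs hl1 hl2 => Helper54.GE.core_of_iso Helper80.GE.exists_iso hs hl1 hl2)
    h h' hd hs hs' (ind_of_smooth h h' hd hs hs') hR

end Pool.Agent.Helper15.GE
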