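import Pool.Agent.Helper15.GE.Bir

set_option autoImplicit false
set_option linter.unusedVariables false
set_option linter.unusedSectionVars false

/-!
Gale duality of cubic fourfolds `det B + l₀ l₁ l₂ = 0`.

`B`, `l` are twelve linear forms on a six dimensional space, `B'`, `l'` twelve linear forms on a six
dimensional space, such that the two spaces are orthogonal in `M₃ ⊕ ℂ³`.  The cubics
`det B + l₀ l₁ l₂ = 0` and `det B' - l'₀ l'₁ l'₂ = 0` are birational: the correspondence is given by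
the condition that `Bᵀ B'` is lower triangular with diagonal entries `- lᵢ l'ᵢ`.
-/

namespace Pool.Agent.Helper15.GE

open MvPolynomial Module Matrix Pool.Agent.Helper16

/-- the value of a linear form -/
theorem aeval_linear {G : MvPolynomial (Fin 6) ℂ} (hG : G.IsHomogeneous 1) {K : Type} [Field K]
    [Algebra ℂ K] (x : Fin 6 → K) :
    aeval x G = ∑ a, algebraMap ℂ K (eval (Pi.single a 1) G) * x a := by
  set G' : MvPolynomial (Fin 6) ℂ := ∑ a, C (eval (Pi.single a 1) G) * X a with hG'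
  have h1 : G = G' := by
    apply MvPolynomial.funext
    intro y
    have h2 := euler_eval hG y
    simp only [Nat.cast_one, one_mul] at h2
    rw [h2, hG', map_sum]
    refine Finset.sum_congr rfl fun a _ => ?_
    rw [map_mul, eval_C, eval_X, mul_comm]
    congr 1
    have h3 := euler_eval hG (Pi.single a 1 : Fin 6 → ℂ)
    simp only [Nat.cast_one, one_mul] at h3
    rw [h3, Finset.sum_eq_single a]
    · rw [Pi.single_eq_same, one_mul, eval_const_of_hom0 (hG.pderiv (i := a)) y,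
        eval_const_of_hom0 (hG.pderiv (i := a)) (Pi.single a 1)]
    · intro b _ hb
      rw [Pi.single_eq_of_ne hb, zero_mul]
    · intro h; exact absurd (Finset.mem_univ a) h
  conv_lhs => rw [h1, hG']
  rw [map_sum]
  refine Finset.sum_congr rfl fun a _ => ?_
  rw [map_mul, aeval_X, algHom_C]

/-- the matrix of the product of two linear forms -/
noncomputable def prodMat (G G' : MvPolynomial (Fin 6) ℂ) : Matrix (Fin 6) (Fin 6) ℂ :=
  fun a b => eval (Pi.single a 1) G * eval (Pi.single b 1) G'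

theorem prodMat_apply {G G' : MvPolynomial (Fin 6) ℂ} (hG : G.IsHomogeneous 1)
    (hG' : G'.IsHomogeneous 1) {K : Type} [Field K] [Algebra ℂ K] (x y : Fin 6 → K) :
    ∑ i, ∑ j, algebraMap ℂ K (prodMat G G' i j) * x i * y j = aeval x G * aeval y G' := by
  rw [aeval_linear hG, aeval_linear hG', Finset.sum_mul]
  refine Finset.sum_congr rfl fun i _ => ?_
  rw [Finset.mul_sum]
  refine Finset.sum_congr rfl fun j _ => ?_
  rw [prodMat, map_mul]; ring

/-- twelve linear forms -/
structure Lin (B : Matrix (Fin 3) (Fin 3) (MvPolynomial (Fin 6) ℂ))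
    (l : Fin 3 → MvPolynomial (Fin 6) ℂ) : Prop where
  B : ∀ i j, (B i j).IsHomogeneous 1
  l : ∀ i, (l i).IsHomogeneous 1

/-- the five bilinear forms: the entries `01`, `02`, `12` of `Bᵀ B'`, and the entries `00`, `11`
of `Bᵀ B' + diag (l l')` -/
noncomputable def five (B B' : Matrix (Fin 3) (Fin 3) (MvPolynomial (Fin 6) ℂ))
    (l l' : Fin 3 → MvPolynomial (Fin 6) ℂ) : Fin 5 → Matrix (Fin 6) (Fin 6) ℂ :=
  ![∑ k, prodMat (B k 0) (B' k 1), ∑ k, prodMat (B k 0) (B' k 2), ∑ k, prodMat (B k 1) (B' k 2),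
    ∑ k, prodMat (B k 0) (B' k 0) + prodMat (l 0) (l' 0),
    ∑ k, prodMat (B k 1) (B' k 1) + prodMat (l 1) (l' 1)]

variable {B B' : Matrix (Fin 3) (Fin 3) (MvPolynomial (Fin 6) ℂ)}
  {l l' : Fin 3 → MvPolynomial (Fin 6) ℂ}

theorem sum_prodMat {G G' : Fin 3 → MvPolynomial (Fin 6) ℂ} (hG : ∀ k, (G k).IsHomogeneous 1)
    (hG' : ∀ k, (G' k).IsHomogeneous 1) {K : Type} [Field K] [Algebra ℂ K] (x y : Fin 6 → K) :
    ∑ i, ∑ j, algebraMap ℂ K ((∑ k : Fin 3, prodMat (G k) (G' k)) i j) * x i * y j =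
      ∑ k, aeval x (G k) * aeval y (G' k) := by
  have h1 : ∀ k, aeval x (G k) * aeval y (G' k) =
      ∑ i, ∑ j, algebraMap ℂ K (prodMat (G k) (G' k) i j) * x i * y j :=
    fun k => (prodMat_apply (hG k) (hG' k) x y).symm
  have h2 : ∀ i j, algebraMap ℂ K ((∑ k : Fin 3, prodMat (G k) (G' k)) i j) * x i * y j =
      ∑ k : Fin 3, algebraMap ℂ K (prodMat (G k) (G' k) i j) * x i * y j := by
    intro i j
    rw [Matrix.sum_apply, map_sum, Finset.sum_mul, Finset.sum_mul]
  calc ∑ i, ∑ j, algebraMap ℂ K ((∑ k : Fin 3, prodMat (G k) (G' k)) i j) * x i * y j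
      = ∑ i, ∑ j, ∑ k : Fin 3, algebraMap ℂ K (prodMat (G k) (G' k) i j) * x i * y j :=
        Finset.sum_congr rfl fun i _ => Finset.sum_congr rfl fun j _ => h2 i j
    _ = ∑ i, ∑ k : Fin 3, ∑ j, algebraMap ℂ K (prodMat (G k) (G' k) i j) * x i * y j :=
        Finset.sum_congr rfl fun i _ => Finset.sum_comm
    _ = ∑ k : Fin 3, ∑ i, ∑ j, algebraMap ℂ K (prodMat (G k) (G' k) i j) * x i * y j :=
        Finset.sum_comm
    _ = _ := Finset.sum_congr rfl fun k _ => (h1 k).symm

theorem bil_five (h : Lin B l) (h' : Lin B' l') {K : Type} [Field K] [Algebra ℂ K]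
    (x y : Fin 6 → K) :
    bil (five B B' l l') 0 x y = ∑ k, aeval x (B k 0) * aeval y (B' k 1) ∧
    bil (five B B' l l') 1 x y = ∑ k, aeval x (B k 0) * aeval y (B' k 2) ∧
    bil (five B B' l l') 2 x y = ∑ k, aeval x (B k 1) * aeval y (B' k 2) ∧
    bil (five B B' l l') 3 x y = ∑ k, aeval x (B k 0) * aeval y (B' k 0) +
      aeval x (l 0) * aeval y (l' 0) ∧
    bil (five B B' l l') 4 x y = ∑ k, aeval x (B k 1) * aeval y (B' k 1) +
      aeval x (l 1) * aeval y (l' 1) := by
  have hadd : ∀ M N : Matrix (Fin 6) (Fin 6) ℂ,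
      ∑ i, ∑ j, algebraMap ℂ K ((M + N) i j) * x i * y j =
        ∑ i, ∑ j, algebraMap ℂ K (M i j) * x i * y j +
          ∑ i, ∑ j, algebraMap ℂ K (N i j) * x i * y j := by
    intro M N
    rw [← Finset.sum_add_distrib]
    refine Finset.sum_congr rfl fun i _ => ?_
    rw [← Finset.sum_add_distrib]
    refine Finset.sum_congr rfl fun j _ => ?_
    rw [Matrix.add_apply, map_add]; ring
  refine ⟨?_, ?_, ?_, ?_, ?_⟩
  · exact sum_prodMat (fun k => h.B k 0) (fun k => h'.B k 1) x y
  · exact sum_prodMat (fun k => h.B k 0) (fun k => h'.B k 2) x y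
  · exact sum_prodMat (fun k => h.B k 1) (fun k => h'.B k 2) x y
  · rw [← sum_prodMat (fun k => h.B k 0) (fun k => h'.B k 0) x y,
      ← prodMat_apply (h.l 0) (h'.l 0) x y, ← hadd]
    rfl
  · rw [← sum_prodMat (fun k => h.B k 1) (fun k => h'.B k 1) x y,
      ← prodMat_apply (h.l 1) (h'.l 1) x y, ← hadd]
    rfl

/-- orthogonality of the two systems of twelve linear forms -/
def Dual (B B' : Matrix (Fin 3) (Fin 3) (MvPolynomial (Fin 6) ℂ))
    (l l' : Fin 3 → MvPolynomial (Fin 6) ℂ) : Prop :=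
  ∀ x x' : Fin 6 → ℂ, ∑ i, ∑ j, eval x (B i j) * eval x' (B' i j) +
    ∑ i, eval x (l i) * eval x' (l' i) = 0

theorem Dual.ext (h : Lin B l) (h' : Lin B' l') (hd : Dual B B' l l') {K : Type} [Field K]
    [Algebra ℂ K] (x y : Fin 6 → K) :
    ∑ i, ∑ j, aeval x (B i j) * aeval y (B' i j) + ∑ i, aeval x (l i) * aeval y (l' i) = 0 := by
  have h1 : ∑ i, ∑ j, aeval x (B i j) * aeval y (B' i j) + ∑ i, aeval x (l i) * aeval y (l' i) =
      ∑ a, ∑ b, algebraMap ℂ K ((∑ i, ∑ j, prodMat (B i j) (B' i j) +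
        ∑ i, prodMat (l i) (l' i)) a b) * x a * y b := by
    have e1 : ∀ i j, aeval x (B i j) * aeval y (B' i j) =
        ∑ a, ∑ b, algebraMap ℂ K (prodMat (B i j) (B' i j) a b) * x a * y b :=
      fun i j => (prodMat_apply (h.B i j) (h'.B i j) x y).symm
    have e2 : ∀ i, aeval x (l i) * aeval y (l' i) =
        ∑ a, ∑ b, algebraMap ℂ K (prodMat (l i) (l' i) a b) * x a * y b :=
      fun i => (prodMat_apply (h.l i) (h'.l i) x y).symm
    simp only [e1, e2]
    have e3 : ∀ a b, algebraMap ℂ K ((∑ i, ∑ j, prodMat (B i j) (B' i j) +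
        ∑ i, prodMat (l i) (l' i)) a b) * x a * y b =
        ∑ i, ∑ j, algebraMap ℂ K (prodMat (B i j) (B' i j) a b) * x a * y b +
        ∑ i, algebraMap ℂ K (prodMat (l i) (l' i) a b) * x a * y b := by
      intro a b
      simp only [Matrix.add_apply, Matrix.sum_apply, map_add, map_sum, add_mul, Finset.sum_mul]
    simp only [e3, Finset.sum_add_distrib]
    congr 1
    · calc ∑ i, ∑ j, ∑ a, ∑ b, algebraMap ℂ K (prodMat (B i j) (B' i j) a b) * x a * y b
          = ∑ i, ∑ a, ∑ j, ∑ b, algebraMap ℂ K (prodMat (B i j) (B' i j) a b) * x a * y b :=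
            Finset.sum_congr rfl fun i _ => Finset.sum_comm
        _ = ∑ a, ∑ i, ∑ j, ∑ b, algebraMap ℂ K (prodMat (B i j) (B' i j) a b) * x a * y b :=
            Finset.sum_comm
        _ = ∑ a, ∑ i, ∑ b, ∑ j, algebraMap ℂ K (prodMat (B i j) (B' i j) a b) * x a * y b :=
            Finset.sum_congr rfl fun a _ => Finset.sum_congr rfl fun i _ => Finset.sum_comm
        _ = ∑ a, ∑ b, ∑ i, ∑ j, algebraMap ℂ K (prodMat (B i j) (B' i j) a b) * x a * y b :=
            Finset.sum_congr rfl fun a _ => Finset.sum_comm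
    · calc ∑ i, ∑ a, ∑ b, algebraMap ℂ K (prodMat (l i) (l' i) a b) * x a * y b
          = ∑ a, ∑ i, ∑ b, algebraMap ℂ K (prodMat (l i) (l' i) a b) * x a * y b :=
            Finset.sum_comm
        _ = ∑ a, ∑ b, ∑ i, algebraMap ℂ K (prodMat (l i) (l' i) a b) * x a * y b :=
            Finset.sum_congr rfl fun a _ => Finset.sum_comm
  rw [h1]
  refine Finset.sum_eq_zero fun a _ => Finset.sum_eq_zero fun b _ => ?_
  have h2 := hd (Pi.single a 1) (Pi.single b 1)
  have h3 : (∑ i, ∑ j, prodMat (B i j) (B' i j) + ∑ i, prodMat (l i) (l' i)) a b = 0 := by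
    rw [Matrix.add_apply, Matrix.sum_apply, Matrix.sum_apply]
    simp only [Matrix.sum_apply, prodMat]
    exact h2
  rw [h3, map_zero, zero_mul, zero_mul]

/-- `Bᵀ B'` is lower triangular: the determinants -/
theorem det_eq {R : Type*} [CommRing R] (M M' : Matrix (Fin 3) (Fin 3) R)
    (h1 : ∑ k, M k 0 * M' k 1 = 0) (h2 : ∑ k, M k 0 * M' k 2 = 0) (h3 : ∑ k, M k 1 * M' k 2 = 0) :
    M.det * M'.det = (∑ k, M k 0 * M' k 0) * (∑ k, M k 1 * M' k 1) * (∑ k, M k 2 * M' k 2) := by
  rw [← Matrix.det_transpose M, ← Matrix.det_mul, Matrix.det_fin_three]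
  have e : ∀ i j, (Mᵀ * M') i j = ∑ k, M k i * M' k j := fun i j => rfl
  simp only [e, h1, h2, h3]
  ring

variable (B l) in
/-- the cubic form `det B + l₀ l₁ l₂` -/
noncomputable def cubicP : MvPolynomial (Fin 6) ℂ := B.det + l 0 * l 1 * l 2

variable (B l) in
/-- the cubic form `det B - l₀ l₁ l₂` -/
noncomputable def cubicM : MvPolynomial (Fin 6) ℂ := B.det - l 0 * l 1 * l 2

theorem aeval_det {K : Type} [Field K] [Algebra ℂ K] (x : Fin 6 → K) :
    aeval x B.det = (Matrix.of fun i j => aeval x (B i j)).det :=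
  AlgHom.map_det (aeval x) B

theorem tri_of_five (h : Lin B l) (h' : Lin B' l') (hd : Dual B B' l l') {K : Type} [Field K]
    [Algebra ℂ K] (x y : Fin 6 → K) (hb : ∀ k, bil (five B B' l l') k x y = 0) :
    aeval x B.det * aeval y B'.det =
      - (aeval x (l 0 * l 1 * l 2) * aeval y (l' 0 * l' 1 * l' 2)) := by
  obtain ⟨b0, b1, b2, b3, b4⟩ := bil_five h h' x y
  rw [hb] at b0 b1 b2 b3 b4
  have hs := hd.ext h h' x y
  rw [aeval_det, aeval_det, det_eq _ _ b0.symm b1.symm b2.symm]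
  have e0 : ∑ k, aeval x (B k 0) * aeval y (B' k 0) = - (aeval x (l 0) * aeval y (l' 0)) := by
    linear_combination -b3
  have e1 : ∑ k, aeval x (B k 1) * aeval y (B' k 1) = - (aeval x (l 1) * aeval y (l' 1)) := by
    linear_combination -b4
  have e2 : ∑ k, aeval x (B k 2) * aeval y (B' k 2) = - (aeval x (l 2) * aeval y (l' 2)) := by
    have hsum : ∑ i, ∑ j, aeval x (B i j) * aeval y (B' i j) =
        ∑ k, aeval x (B k 0) * aeval y (B' k 0) + ∑ k, aeval x (B k 1) * aeval y (B' k 1) +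
          ∑ k, aeval x (B k 2) * aeval y (B' k 2) := by
      rw [Finset.sum_comm, Fin.sum_univ_three]
    have hl : ∑ i, aeval x (l i) * aeval y (l' i) = aeval x (l 0) * aeval y (l' 0) +
        aeval x (l 1) * aeval y (l' 1) + aeval x (l 2) * aeval y (l' 2) := Fin.sum_univ_three _
    rw [hsum, e0, e1, hl] at hs
    linear_combination hs
  simp only [Matrix.of_apply]
  rw [e0, e1, e2]
  simp only [map_mul]
  ring

theorem imp_five (h : Lin B l) (h' : Lin B' l') (hd : Dual B B' l l') :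
    Imp (cubicP B l) (cubicM B' l') (l 0 * l 1 * l 2) (five B B' l l') := by
  intro K _ _ x y hb hF hP
  have h1 := tri_of_five h h' hd x y hb
  rw [cubicP, map_add] at hF
  rw [cubicM, map_sub]
  apply mul_left_cancel₀ hP
  rw [mul_zero]
  linear_combination (aeval y B'.det) * hF - h1

theorem imp_five' (h : Lin B l) (h' : Lin B' l') (hd : Dual B B' l l') :
    Imp (cubicM B' l') (cubicP B l) (l' 0 * l' 1 * l' 2) (tr (five B B' l l')) := by
  intro K _ _ y x hb hF hP
  have h1 := tri_of_five h h' hd x y (fun k => by rw [← bil_tr]; exact hb k)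
  rw [cubicM, map_sub] at hF
  rw [cubicP, map_add]
  apply mul_left_cancel₀ hP
  rw [mul_zero]
  linear_combination h1 - (aeval x B.det) * hF

/-- a matrix whose kernel is a line has a nonzero maximal minor -/
theorem cross_ne {K : Type} [Field K] [Algebra ℂ K] (M : Matrix (Fin 5) (Fin 6) K) (w : Fin 6 → K) (hw : w ≠ 0)
    (hker : ∀ v : Fin 6 → K, (∀ k, ∑ j, M k j * v j = 0) → ∃ s : K, v = s • w) :
    cross M ≠ 0 := by
  obtain ⟨i, hi⟩ := Function.ne_iff.mp hw
  have hi : w i ≠ 0 := hi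
  set N : Matrix (Fin 6) (Fin 6) K := Matrix.of (Fin.cons (Pi.single i 1) M : Fin 6 → Fin 6 → K)
    with hN
  have hdet : N.det ≠ 0 := by
    intro h0
    obtain ⟨v, hv0, hv⟩ := Matrix.exists_mulVec_eq_zero_iff.mpr h0
    have h1 : ∀ k, ∑ j, M k j * v j = 0 := fun k => congrFun hv k.succ
    have h2 : ∑ j, (Pi.single i 1 : Fin 6 → K) j * v j = 0 := congrFun hv 0
    have h3 : v i = 0 := by
      simpa [Pi.single_apply] using h2
    obtain ⟨s, hs⟩ := hker v h1
    rw [hs, Pi.smul_apply, smul_eq_mul] at h3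
    rcases mul_eq_zero.mp h3 with h4 | h4
    · apply hv0
      rw [hs, h4, zero_smul]
    · exact hi h4
  intro h0
  apply hdet
  rw [hN, ← cross_dot, h0]
  simp

theorem cubicP_hom (h : Lin B l) : (cubicP B l).IsHomogeneous 3 := by
  have h1 : B.det.IsHomogeneous 3 := by
    rw [Matrix.det_apply]
    refine IsHomogeneous.sum _ _ _ fun σ _ => ?_
    have h2 : (∏ i : Fin 3, B (σ i) i).IsHomogeneous 3 := by
      have := IsHomogeneous.prod Finset.univ (fun i : Fin 3 => B (σ i) i) (fun _ => 1)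
        (fun i _ => h.B _ _)
      simpa using this
    rcases Int.units_eq_one_or (Equiv.Perm.sign σ) with h | h
    · rw [h, one_smul]; exact h2
    · rw [h, Units.neg_smul, one_smul]; exact h2.neg
  exact h1.add (((h.l 0).mul (h.l 1)).mul (h.l 2))

theorem cubicM_hom (h : Lin B l) : (cubicM B l).IsHomogeneous 3 := by
  have h1 := cubicP_hom (B := B) (l := fun i => - l i) ⟨h.B, fun i => (h.l i).neg⟩
  have h2 : cubicM B l = cubicP B (fun i => - l i) := by
    rw [cubicM, cubicP]; ring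
  rw [h2]; exact h1

theorem prod_hom (h : Lin B l) : (l 0 * l 1 * l 2).IsHomogeneous 3 :=
  ((h.l 0).mul (h.l 1)).mul (h.l 2)

/-- The pair `(p, p')` is a nondegenerate point of the correspondence: `p` and `p'` are points of
the two cubics, `Bᵀ(p) B'(p')` is lower triangular with diagonal entries `- lᵢ(p) l'ᵢ(p')`,
and each of the two points is determined by the other. -/
structure Corr (B B' : Matrix (Fin 3) (Fin 3) (MvPolynomial (Fin 6) ℂ))
    (l l' : Fin 3 → MvPolynomial (Fin 6) ℂ) (p p' : Fin 6 → ℂ) : Prop where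
  ne : p ≠ 0
  ne' : p' ≠ 0
  zero : eval p (cubicP B l) = 0
  zero' : eval p' (cubicM B' l') = 0
  tri : ∀ i j, i ≤ j → ∑ k, eval p (B k i) * eval p' (B' k j) =
    if i = j then - (eval p (l i) * eval p' (l' i)) else 0
  uniq : ∀ q : Fin 6 → ℂ, (∀ i j, i ≤ j → ∑ k, eval p (B k i) * eval q (B' k j) =
    if i = j then - (eval p (l i) * eval q (l' i)) else 0) → ∃ s : ℂ, q = s • p'
  uniq' : ∀ q : Fin 6 → ℂ, (∀ i j, i ≤ j → ∑ k, eval q (B k i) * eval p' (B' k j) =
    if i = j then - (eval q (l i) * eval p' (l' i)) else 0) → ∃ s : ℂ, q = s • p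

theorem tri_iff (h : Lin B l) (h' : Lin B' l') (hd : Dual B B' l l') (x y : Fin 6 → ℂ) :
    (∀ i j, i ≤ j → ∑ k, eval x (B k i) * eval y (B' k j) =
      if i = j then - (eval x (l i) * eval y (l' i)) else 0) ↔
    ∀ k, bil (five B B' l l') k x y = 0 := by
  obtain ⟨b0, b1, b2, b3, b4⟩ := bil_five h h' x y
  simp only [aeval_eq_eval] at b0 b1 b2 b3 b4
  constructor
  · intro ht
    have t01 := ht 0 1 (by decide)
    have t02 := ht 0 2 (by decide)
    have t12 := ht 1 2 (by decide)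
    have t00 := ht 0 0 (by decide)
    have t11 := ht 1 1 (by decide)
    simp only [if_true] at t00 t11
    rw [if_neg (by decide)] at t01 t02 t12
    intro k
    fin_cases k
    · exact b0.trans t01
    · exact b1.trans t02
    · exact b2.trans t12
    · exact b3.trans (by rw [t00]; ring)
    · exact b4.trans (by rw [t11]; ring)
  · intro hb
    rw [hb] at b0 b1 b2 b3 b4
    have hs := hd x y
    have hsum : ∑ i, ∑ j, eval x (B i j) * eval y (B' i j) =
        ∑ k, eval x (B k 0) * eval y (B' k 0) + ∑ k, eval x (B k 1) * eval y (B' k 1) +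
          ∑ k, eval x (B k 2) * eval y (B' k 2) := by
      rw [Finset.sum_comm, Fin.sum_univ_three]
    rw [hsum] at hs
    have hl : ∑ i, eval x (l i) * eval y (l' i) = eval x (l 0) * eval y (l' 0) +
        eval x (l 1) * eval y (l' 1) + eval x (l 2) * eval y (l' 2) := Fin.sum_univ_three _
    rw [hl] at hs
    intro i j hij
    fin_cases i <;> fin_cases j
    · simp only [Fin.zero_eta, if_true]; linear_combination -b3
    · exact b0.symm
    · exact b1.symm
    · exact absurd hij (by decide)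
    · simp only [Fin.mk_one, if_true]; linear_combination -b4
    · exact b2.symm
    · exact absurd hij (by decide)
    · exact absurd hij (by decide)
    · simp only [Fin.reduceFinMk, if_true]; linear_combination hs + b3 + b4

theorem not_dvd_linear {F : MvPolynomial (Fin 6) ℂ} (hF : F.IsHomogeneous 3) (hs : Smooth F)
    {G : MvPolynomial (Fin 6) ℂ} (hG : G.IsHomogeneous 1) (hG0 : G ≠ 0) : ¬ F ∣ G := by
  have hF0 := (irreducible_of_smooth hF hs).ne_zero
  rintro ⟨k, hk⟩
  have hk0 : k ≠ 0 := by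
    rintro rfl
    rw [mul_zero] at hk
    exact hG0 hk
  have h8 := totalDegree_mul_of_isDomain hF0 hk0
  rw [← hk, hG.totalDegree hG0, hF.totalDegree hF0] at h8
  omega

theorem not_dvd_prod {F : MvPolynomial (Fin 6) ℂ} (hF : F.IsHomogeneous 3) (hs : Smooth F)
    {l : Fin 3 → MvPolynomial (Fin 6) ℂ} (hl : ∀ i, (l i).IsHomogeneous 1) (h0 : ∀ i, l i ≠ 0) :
    ¬ F ∣ l 0 * l 1 * l 2 := by
  have hp := (irreducible_of_smooth hF hs).prime
  intro h
  rcases hp.dvd_or_dvd h with h | h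
  · rcases hp.dvd_or_dvd h with h | h
    · exact not_dvd_linear hF hs (hl 0) (h0 0) h
    · exact not_dvd_linear hF hs (hl 1) (h0 1) h
  · exact not_dvd_linear hF hs (hl 2) (h0 2) h

/-- **Gale duality**, for generic points. -/
theorem gale_ratG (h : Lin B l) (h' : Lin B' l') (hd : Dual B B' l l') (h0 : ∀ i, l i ≠ 0)
    (h0' : ∀ i, l' i ≠ 0) (hs : Smooth (cubicP B l)) (hs' : Smooth (cubicM B' l'))
    {p p' : Fin 6 → ℂ} (hp : Corr B B' l l' p p') (hR : RatG (cubicM B' l')) :
    RatG (cubicP B l) := by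
  have hF := cubicP_hom h
  have hF' := cubicM_hom h'
  have hpp := (tri_iff h h' hd p p').mp hp.tri
  refine ratG_transfer hF' hs' (prod_hom h) (prod_hom h') (imp_five h h' hd) (imp_five' h h' hd)
    (not_dvd_prod hF hs h.l h0) (not_dvd_prod hF' hs' h'.l h0')
    hpp (by rw [aeval_eq_eval]; exact hp.zero) (by rw [aeval_eq_eval]; exact hp.zero') ?_ ?_ hR
  · refine cross_ne _ p' hp.ne' fun v hv => hp.uniq v ((tri_iff h h' hd p v).mpr fun k => ?_)
    rw [bil_rows]; exact hv k
  · refine cross_ne _ p hp.ne fun v hv => hp.uniq' v ((tri_iff h h' hd v p').mpr fun k => ?_)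
    rw [← bil_tr, bil_rows]; exact hv k

/-- **Gale duality.** -/
theorem gale (h : Lin B l) (h' : Lin B' l') (hd : Dual B B' l l') (h0 : ∀ i, l i ≠ 0)
    (h0' : ∀ i, l' i ≠ 0) (hs : Smooth (cubicP B l)) (hs' : Smooth (cubicM B' l'))
    {p p' : Fin 6 → ℂ} (hp : Corr B B' l l' p p')
    (hR : Nonempty (FractionRing (MvPolynomial (Fin 5) ℂ ⧸ Ideal.span {dh (cubicM B' l')}) ≃ₐ[ℂ]
      FractionRing (MvPolynomial (Fin 4) ℂ))) :
    Nonempty (FractionRing (MvPolynomial (Fin 5) ℂ ⧸ Ideal.span {dh (cubicP B l)}) ≃ₐ[ℂ]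
      FractionRing (MvPolynomial (Fin 4) ℂ)) :=
  rational_of_ratG (cubicP_hom h) hs (gale_ratG h h' hd h0 h0' hs hs' hp
    (ratG_of_rational (cubicM_hom h') hs' hR))

end Pool.Agent.Helper15.GE
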