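import Pool.Agent.Helper16.CubicEngine

set_option autoImplicit false
set_option linter.unusedVariables false
set_option linter.unusedSectionVars false

/-!
Generic points of a smooth cubic fourfold, and rationality in terms of generic points.
-/

namespace Pool.Agent.Helper15.GE

open MvPolynomial Module Pool.Agent.Helper16

/-- a generic point of the cubic `F = 0` with homogeneous coordinates in a field -/
structure GenPt (F : MvPolynomial (Fin 6) ℂ) {K : Type} [Field K] [Algebra ℂ K]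
    (x : Fin 6 → K) : Prop where
  zero : aeval x F = 0
  gen : ∀ (G : MvPolynomial (Fin 6) ℂ) (n : ℕ), G.IsHomogeneous n → aeval x G = 0 → F ∣ G

/-- the function field is generated by four elements -/
def RatG (F : MvPolynomial (Fin 6) ℂ) : Prop :=
  ∀ (K : Type) [Field K] [Algebra ℂ K] (x : Fin 6 → K), GenPt F x →
    ∃ (r : Fin 4 → K) (τ : K), τ ≠ 0 ∧ ∀ m, τ * x m ∈ IntermediateField.adjoin ℂ (Set.range r)

variable {F : MvPolynomial (Fin 6) ℂ}

theorem irreducible_of_smooth (hF : F.IsHomogeneous 3) (hs : Smooth F) : Irreducible F := by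
  have hirr := irreducible_dh hF hs
  have hF0 : F ≠ 0 := by
    rintro rfl
    apply hirr.ne_zero
    rw [map_zero]
  constructor
  · intro hu
    have h1 := MvPolynomial.isUnit_iff_totalDegree_of_isReduced.mp hu
    have h2 := hF.totalDegree hF0
    omega
  · intro a b hab
    obtain ⟨m, e, ha, hb, hme⟩ := hom_factor (by rw [← hab]; exact hF) (by rw [← hab]; exact hF0)
    have ha0 : a ≠ 0 := by rintro rfl; apply hF0; rw [hab, zero_mul]
    have hb0 : b ≠ 0 := by rintro rfl; apply hF0; rw [hab, mul_zero]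
    have hunit : ∀ g : MvPolynomial (Fin 6) ℂ, g ≠ 0 → g.IsHomogeneous 0 → IsUnit g := by
      intro g hg hd
      rw [← totalDegree_zero_iff_isHomogeneous, totalDegree_eq_zero_iff_eq_C] at hd
      rw [hd]
      apply IsUnit.map
      rw [isUnit_iff_ne_zero]
      intro h0; apply hg; rw [hd, h0, map_zero]
    have hcases : m = 0 ∨ m = 1 ∨ m = 2 ∨ m = 3 := by omega
    rcases hcases with rfl | rfl | rfl | rfl
    · exact Or.inl (hunit a ha0 ha)
    · exact (not_factor hF hs ha hab).elim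
    · have he : e = 1 := by omega
      subst he
      exact (not_factor hF hs hb (by rw [hab, mul_comm])).elim
    · have he : e = 0 := by omega
      subst he
      exact Or.inr (hunit b hb0 hb)

theorem dvd_of_dh_dvd (hF : F.IsHomogeneous 3) (hs : Smooth F) (G : MvPolynomial (Fin 6) ℂ)
    (n : ℕ) (hG : G.IsHomogeneous n) (h : dh F ∣ dh G) : F ∣ G := by
  have hFirr := irreducible_of_smooth hF hs
  have hF0 := hFirr.ne_zero
  obtain ⟨q, hq⟩ := h
  set d := q.totalDegree with hd
  have h1 : (F * hmg d q).IsHomogeneous (3 + d) := hF.mul (hmg_hom d q)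
  have h2 : dh (F * hmg d q) = dh G := by rw [map_mul, dh_hmg le_rfl, hq]
  have hX : dh (X 0) = 1 := by simp [dh]
  rcases le_total (3 + d) n with h | h
  · have h3 : (X 0 ^ (n - (3 + d)) * (F * hmg d q)).IsHomogeneous n := by
      have := (isHomogeneous_X_pow (R := ℂ) (0 : Fin 6) (n - (3 + d))).mul h1
      rwa [Nat.sub_add_cancel h] at this
    have h4 : dh (G - X 0 ^ (n - (3 + d)) * (F * hmg d q)) = 0 := by
      rw [map_sub, map_mul, map_pow, hX, one_pow, one_mul, h2, sub_self]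
    have h5 := sub_eq_zero.mp (dh_inj (hG.sub h3) h4)
    rw [h5]
    exact ⟨X 0 ^ (n - (3 + d)) * hmg d q, by ring⟩
  · have h3 : (X 0 ^ (3 + d - n) * G).IsHomogeneous (3 + d) := by
      have := (isHomogeneous_X_pow (R := ℂ) (0 : Fin 6) (3 + d - n)).mul hG
      rwa [Nat.sub_add_cancel h] at this
    have h4 : dh (X 0 ^ (3 + d - n) * G - F * hmg d q) = 0 := by
      rw [map_sub, map_mul, map_pow, hX, one_pow, one_mul, h2, sub_self]
    have h5 := sub_eq_zero.mp (dh_inj (h3.sub h1) h4)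
    have hp := hFirr.prime
    rcases hp.dvd_or_dvd ⟨hmg d q, h5⟩ with h6 | h6
    · exfalso
      have h7 := hp.dvd_of_dvd_pow h6
      obtain ⟨k, hk⟩ := h7
      have hk0 : k ≠ 0 := by
        rintro rfl
        rw [mul_zero] at hk
        exact X_ne_zero _ hk
      have h8 := totalDegree_mul_of_isDomain hF0 hk0
      rw [← hk, totalDegree_X, hF.totalDegree hF0] at h8
      omega
    · exact h6

/-- `F` does not divide `X 0` -/
theorem not_dvd_X (hF : F.IsHomogeneous 3) (hs : Smooth F) (i : Fin 6) : ¬ F ∣ X i := by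
  have hF0 := (irreducible_of_smooth hF hs).ne_zero
  rintro ⟨k, hk⟩
  have hk0 : k ≠ 0 := by
    rintro rfl
    rw [mul_zero] at hk
    exact X_ne_zero _ hk
  have h8 := totalDegree_mul_of_isDomain hF0 hk0
  rw [← hk, totalDegree_X, hF.totalDegree hF0] at h8
  omega

/-- existence of a generic point -/
theorem exists_genPt (hF : F.IsHomogeneous 3) (hs : Smooth F) :
    ∃ (K : Type) (_ : Field K) (_ : Algebra ℂ K) (x : Fin 6 → K), GenPt F x := by
  have hirr := irreducible_dh hF hs
  have hprime : (Ideal.span {dh F}).IsPrime :=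
    (Ideal.span_singleton_prime hirr.ne_zero).mpr hirr.prime
  have : IsDomain (MvPolynomial (Fin 5) ℂ ⧸ Ideal.span {dh F}) := Ideal.Quotient.isDomain _
  let A := MvPolynomial (Fin 5) ℂ ⧸ Ideal.span {dh F}
  let K := FractionRing A
  let π : MvPolynomial (Fin 5) ℂ →ₐ[ℂ] A := Ideal.Quotient.mkₐ ℂ _
  let ιA : A →ₐ[ℂ] K := IsScalarTower.toAlgHom ℂ A K
  have hιA : Function.Injective ιA := IsFractionRing.injective A K
  let θ : MvPolynomial (Fin 5) ℂ →ₐ[ℂ] K := ιA.comp π
  have hθ : ∀ q, θ q = 0 → dh F ∣ q := by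
    intro q hq
    have : π q = 0 := hιA (by rw [map_zero]; exact hq)
    exact Ideal.mem_span_singleton.mp (Ideal.Quotient.eq_zero_iff_mem.mp this)
  have hθF : θ (dh F) = 0 := by
    have : π (dh F) = 0 := Ideal.Quotient.eq_zero_iff_mem.mpr (Ideal.mem_span_singleton_self _)
    change ιA (π (dh F)) = 0
    rw [this, map_zero]
  let xh : Fin 6 → K := fun m => θ ((Fin.cons 1 X : Fin 6 → MvPolynomial (Fin 5) ℂ) m)
  have hxh : ∀ G : MvPolynomial (Fin 6) ℂ, aeval xh G = θ (dh G) := by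
    intro G
    have : (aeval xh : MvPolynomial (Fin 6) ℂ →ₐ[ℂ] K) = θ.comp dh := by
      apply MvPolynomial.algHom_ext
      intro i
      rw [aeval_X, AlgHom.comp_apply]
      change _ = θ (aeval _ (X i))
      rw [aeval_X]
    rw [this]; rfl
  refine ⟨K, inferInstance, inferInstance, xh, ⟨by rw [hxh, hθF], ?_⟩⟩
  intro G n hG h0
  rw [hxh] at h0
  exact dvd_of_dh_dvd hF hs G n hG (hθ _ h0)

/-- rationality gives four generators at every generic point -/
theorem ratG_of_rational (hF : F.IsHomogeneous 3) (hs : Smooth F)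
    (h : Nonempty (FractionRing (MvPolynomial (Fin 5) ℂ ⧸ Ideal.span {dh F}) ≃ₐ[ℂ]
      FractionRing (MvPolynomial (Fin 4) ℂ))) : RatG F := by
  intro K _ _ x hx
  have hirr := irreducible_dh hF hs
  have hprime : (Ideal.span {dh F}).IsPrime :=
    (Ideal.span_singleton_prime hirr.ne_zero).mpr hirr.prime
  have hdom : IsDomain (MvPolynomial (Fin 5) ℂ ⧸ Ideal.span {dh F}) := Ideal.Quotient.isDomain _
  obtain ⟨e⟩ := h
  have hx0 : x 0 ≠ 0 := by
    intro h0
    exact not_dvd_X hF hs 0 (hx.gen (X 0) 1 (isHomogeneous_X ℂ 0) (by rw [aeval_X, h0]))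
  -- affine coordinates
  let y : Fin 5 → K := fun j => (x 0)⁻¹ * x j.succ
  have hxy : ∀ m, x m = x 0 * (Fin.cons 1 y : Fin 6 → K) m := by
    intro m
    refine Fin.cases ?_ (fun j => ?_) m
    · simp
    · simp only [Fin.cons_succ, y]
      rw [← mul_assoc, mul_inv_cancel₀ hx0, one_mul]
  have hdh : ∀ (G : MvPolynomial (Fin 6) ℂ), aeval y (dh G) = aeval (Fin.cons 1 y : Fin 6 → K) G := by
    intro G
    have : (aeval y : MvPolynomial (Fin 5) ℂ →ₐ[ℂ] K).comp dh =
        aeval (Fin.cons 1 y : Fin 6 → K) := by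
      apply MvPolynomial.algHom_ext
      intro i
      refine Fin.cases ?_ (fun j => ?_) i
      · simp [dh]
      · simp [dh]
    exact DFunLike.congr_fun this G
  have hhom : ∀ (G : MvPolynomial (Fin 6) ℂ) (n : ℕ), G.IsHomogeneous n →
      aeval x G = x 0 ^ n * aeval (Fin.cons 1 y : Fin 6 → K) G := by
    intro G n hG
    rw [← aeval_mul_hom hG]
    have h1 : x = fun i => x 0 * (Fin.cons 1 y : Fin 6 → K) i := funext hxy
    have h2 := congrArg (fun z : Fin 6 → K => aeval z G) h1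
    exact h2
  have hFy : aeval y (dh F) = 0 := by
    rw [hdh]
    have h1 := hhom F 3 hF
    rw [hx.zero] at h1
    rcases mul_eq_zero.mp h1.symm with h2 | h2
    · exact absurd (pow_eq_zero_iff (by norm_num) |>.mp h2) hx0
    · exact h2
  let φ : (MvPolynomial (Fin 5) ℂ ⧸ Ideal.span {dh F}) →ₐ[ℂ] K :=
    Ideal.Quotient.liftₐ _ (aeval y) (by
      intro a ha
      obtain ⟨b, hb⟩ := Ideal.mem_span_singleton.mp ha
      rw [hb, map_mul, hFy, zero_mul])
  have hφ : ∀ p, φ (Ideal.Quotient.mk _ p) = aeval y p := fun p => rfl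
  have hφi : Function.Injective φ := by
    rw [injective_iff_map_eq_zero]
    intro a ha
    obtain ⟨p, rfl⟩ := Ideal.Quotient.mk_surjective a
    rw [hφ] at ha
    rw [Ideal.Quotient.eq_zero_iff_mem, Ideal.mem_span_singleton]
    have h1 := dh_hmg (le_refl p.totalDegree)
    have h2 : aeval x (hmg p.totalDegree p) = 0 := by
      rw [hhom _ _ (hmg_hom _ p), ← hdh, h1, ha, mul_zero]
    obtain ⟨q, hq⟩ := hx.gen _ _ (hmg_hom _ p) h2
    refine ⟨dh q, ?_⟩
    rw [← h1, hq, map_mul]
  let Φ : FractionRing (MvPolynomial (Fin 5) ℂ ⧸ Ideal.span {dh F}) →ₐ[ℂ] K :=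
    IsFractionRing.liftAlgHom (K := FractionRing (MvPolynomial (Fin 5) ℂ ⧸ Ideal.span {dh F}))
      hφi
  have hΦ : ∀ p : MvPolynomial (Fin 5) ℂ, Φ (algebraMap (MvPolynomial (Fin 5) ℂ ⧸ Ideal.span {dh F})
      (FractionRing (MvPolynomial (Fin 5) ℂ ⧸ Ideal.span {dh F}))
      (Ideal.Quotient.mk (Ideal.span {dh F}) p)) = aeval y p := by
    intro p
    have : Φ (algebraMap (MvPolynomial (Fin 5) ℂ ⧸ Ideal.span {dh F})
      (FractionRing (MvPolynomial (Fin 5) ℂ ⧸ Ideal.span {dh F}))
      (Ideal.Quotient.mk (Ideal.span {dh F}) p)) = φ (Ideal.Quotient.mk _ p) :=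
      IsFractionRing.lift_algebraMap
        (g := (φ : (MvPolynomial (Fin 5) ℂ ⧸ Ideal.span {dh F}) →+* K)) hφi _
    rw [this, hφ]
  let Ψ : FractionRing (MvPolynomial (Fin 4) ℂ) →ₐ[ℂ] K := Φ.comp e.symm.toAlgHom
  let ι4 : MvPolynomial (Fin 4) ℂ →ₐ[ℂ] FractionRing (MvPolynomial (Fin 4) ℂ) :=
    IsScalarTower.toAlgHom ℂ _ _
  let r : Fin 4 → K := fun i => Ψ (ι4 (X i))
  refine ⟨r, (x 0)⁻¹, inv_ne_zero hx0, ?_⟩
  set L := IntermediateField.adjoin ℂ (Set.range r) with hL
  have h1 : ∀ p : MvPolynomial (Fin 4) ℂ, Ψ (ι4 p) ∈ L := by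
    intro p
    induction p using MvPolynomial.induction_on with
    | C a =>
      have : Ψ (ι4 (C a)) = algebraMap ℂ K a := (Ψ.comp ι4).commutes a
      rw [this]; exact L.algebraMap_mem a
    | add p q hp hq => rw [map_add, map_add]; exact L.add_mem hp hq
    | mul_X p j hp =>
      rw [map_mul, map_mul]
      exact L.mul_mem hp (IntermediateField.subset_adjoin ℂ _ ⟨j, rfl⟩)
  have h2 : ∀ z, Ψ z ∈ L := by
    intro z
    obtain ⟨a, b, hb, rfl⟩ := IsFractionRing.div_surjective (A := MvPolynomial (Fin 4) ℂ) z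
    rw [map_div₀]
    exact L.div_mem (h1 a) (h1 b)
  have h3 : ∀ z, Φ z ∈ L := by
    intro z
    have : Φ z = Ψ (e z) := by
      change Φ z = Φ (e.symm (e z))
      rw [AlgEquiv.symm_apply_apply]
    rw [this]; exact h2 _
  intro m
  refine Fin.cases ?_ (fun j => ?_) m
  · rw [inv_mul_cancel₀ hx0]; exact L.one_mem
  · have : (x 0)⁻¹ * x j.succ = aeval y (X j : MvPolynomial (Fin 5) ℂ) := by
      rw [aeval_X]
    rw [this, ← hΦ]; exact h3 _

/-- the converse: helper16's engine -/
theorem rational_of_ratG (hF : F.IsHomogeneous 3) (hs : Smooth F) (h : RatG F) :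
    Nonempty (FractionRing (MvPolynomial (Fin 5) ℂ ⧸ Ideal.span {dh F}) ≃ₐ[ℂ]
      FractionRing (MvPolynomial (Fin 4) ℂ)) :=
  rational_of_generators hF hs fun K _ _ x h0 hg => h K x ⟨h0, hg⟩

end Pool.Agent.Helper15.GE
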